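import Pool.Agent.Helper79K.TT.DeltaP

set_option autoImplicit false

namespace Pool.Agent.Helper79K.TT

open Pool.Agent.NPC Pool.Agent.H620R2.Gauge Finset
open Pool.Agent.Helper76.Dim (IsGale Succeeds initSeg initSeg_succ chi)

variable {U κ : ℕ → ℕ} {hf : ℕ → ℕ → ℕ} {al : ℕ → Alg} {τ : ℕ → Mch}

theorem lt_ph_of (hG : Good U κ hf al τ) {j m : ℕ} (h : 2 ^ sS U (j + 1) ≤ m + 1) : j < ph U m := by
  have h1 := le_len h
  have h2 := hG.lt_ph m
  have h3 : j + 1 < ph U m + 1 := hG.sS_mono.lt_iff_lt.1 (h1.trans_lt h2)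
  omega

/-- The values of the adversary are those for the final oracle. -/
theorem va_eq (hG : Good U κ hf al τ) {j m : ℕ} (hj : j < ph U m) {F : List Bool → List Bool}
    (hF : ∀ x, (al j).out (AA U κ hf al τ) x = some (F x)) (b : Bool) :
    va al j m (So U (Md U κ hf al τ m)) ((Md U κ hf al τ m).ρ j) b =
      bval (F (pairBits (List.replicate m true) ((Md U κ hf al τ m).ρ j ++ [b]))) := by
  have hlen := length_zin m b (Md_ρ_len (U := U) (κ := κ) (hf := hf) (al := al) (τ := τ) m j)
  have h1 : (al j).out (AA U κ hf al τ) (zin m ((Md U κ hf al τ m).ρ j) b) =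
      (al j).out (So U (Md U κ hf al τ m)) (zin m ((Md U κ hf al τ m).ρ j) b) := by
    refine out_qs fun u hu => agree_mid hG ?_ ?_
    · rw [St_succ]
      refine Finset.mem_union_right _ (Finset.mem_biUnion.2 ⟨j, Finset.mem_range.2 hj, ?_⟩)
      refine Finset.mem_union_left _ ?_
      cases b
      · exact Finset.mem_union_right _ hu
      · exact Finset.mem_union_left _ hu
    · have h2 := len_qs _ _ _ hu
      rw [hlen] at h2
      have h3 := hG.R5 (ph U m + 1) j (by omega) m ?_
      · omega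
      · have h4 := lt_two_pow_len m
        have h5 := Nat.pow_le_pow_right (show 0 < 2 by norm_num)
          (Nat.succ_le_of_lt (hG.lt_ph m))
        simp only [Nat.succ_eq_add_one] at h5
        omega
  rw [va, ← h1, hF]
  rfl

/-- The result of the computation in exponential time is the one for the final oracle. -/
theorem ein_eq (hG : Good U κ hf al τ) {j m : ℕ} (hj : j < ph U m) :
    (al j).out (AA U κ hf al τ) (ein m) = (al j).out (So U (Md U κ hf al τ m)) (ein m) := by
  refine out_qs fun u hu => agree_mid hG ?_ ?_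
  · rw [St_succ]
    refine Finset.mem_union_right _ (Finset.mem_biUnion.2 ⟨j, Finset.mem_range.2 hj, ?_⟩)
    exact Finset.mem_union_right _ hu
  · have h2 := len_qs _ _ _ hu
    have h0 := eval_mono (lb (al j)) (length_ein m)
    have h3 := hG.R5 (ph U m + 1) j (by omega) m ?_
    · omega
    · have h4 := lt_two_pow_len m
      have h5 := Nat.pow_le_pow_right (show 0 < 2 by norm_num)
        (Nat.succ_le_of_lt (hG.lt_ph m))
      simp only [Nat.succ_eq_add_one] at h5
      omega

/-- The hidden languages with odd number. -/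
theorem XI_odd (hG : Good U κ hf al τ) {j m : ℕ} (hj2 : j % 2 = 1) (hj : j < ph U m) :
    XI U κ hf al τ j m = decide ((al j).out (AA U κ hf al τ) (ein m) = some [true]) := by
  rw [XI, decide_eq_true hj, Bool.true_and, bit, if_pos hj2, ein_eq hG hj]

theorem step_le (hG : Good U κ hf al τ) {j m : ℕ} (hj2 : j % 2 = 0) (hj : j < ph U m)
    {F : List Bool → List Bool}
    (hF : ∀ x, (al j).out (AA U κ hf al τ) x = some (F x)) {d : List Bool → ℝ} (hd : IsGale 1 d)
    (hdF : ∀ (r : ℕ) (w : List Bool),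
      |(bval (F (pairBits (List.replicate r true) w)) : ℝ) / 2 ^ r - d w| ≤ 1 / 2 ^ r) :
    d (initSeg (XI U κ hf al τ j) (m + 1)) ≤ d (initSeg (XI U κ hf al τ j) m) + 2 / 2 ^ m := by
  have hρ : (Md U κ hf al τ m).ρ j = initSeg (XI U κ hf al τ j) m := by
    rw [Md, mid_ρ, ρ_eq]
  have h0 := va_eq hG hj hF false
  have h1 := va_eq hG hj hF true
  rw [hρ] at h0 h1
  rw [initSeg_succ]
  set w := initSeg (XI U κ hf al τ j) m with hw
  have hb : XI U κ hf al τ j m = decide (va al j m (So U (Md U κ hf al τ m)) w true <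
      va al j m (So U (Md U κ hf al τ m)) w false) := by
    rw [XI, decide_eq_true hj, Bool.true_and, bit, if_neg (by omega), hρ]
  rw [h0, h1] at hb
  have e0 := abs_le.1 (hdF m (w ++ [false]))
  have e1 := abs_le.1 (hdF m (w ++ [true]))
  have hg := hd.2 w
  rw [Real.rpow_neg (by norm_num), Real.rpow_one] at hg
  have hp : (0 : ℝ) < 2 ^ m := by positivity
  generalize bval (F (pairBits (List.replicate m true) (w ++ [false]))) = v0 at *
  generalize bval (F (pairBits (List.replicate m true) (w ++ [true]))) = v1 at *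
  have e2 : (2 : ℝ) / 2 ^ m = 2 * (1 / 2 ^ m) := by ring
  rw [hb, e2]
  by_cases h2 : v1 < v0
  · rw [decide_eq_true h2]
    have h3 : (v1 : ℝ) / 2 ^ m ≤ v0 / 2 ^ m := by
      have : (v1 : ℝ) ≤ v0 := by exact_mod_cast h2.le
      gcongr
    linarith [e0.1, e0.2, e1.1, e1.2]
  · rw [decide_eq_false h2]
    have h3 : (v0 : ℝ) / 2 ^ m ≤ v1 / 2 ^ m := by
      have : (v0 : ℝ) ≤ v1 := by exact_mod_cast not_lt.1 h2
      gcongr
    linarith [e0.1, e0.2, e1.1, e1.2]

/-- The adversary number `j` does not succeed on the hidden language number `j`. -/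
theorem not_succeeds (hG : Good U κ hf al τ) {j : ℕ} (hj2 : j % 2 = 0)
    {F : List Bool → List Bool}
    (hF : ∀ x, (al j).out (AA U κ hf al τ) x = some (F x)) {d : List Bool → ℝ} (hd : IsGale 1 d)
    (hdF : ∀ (r : ℕ) (w : List Bool),
      |(bval (F (pairBits (List.replicate r true) w)) : ℝ) / 2 ^ r - d w| ≤ 1 / 2 ^ r) :
    ¬ Succeeds d (chi (RL U κ hf al τ j)) := by
  have e : chi (RL U κ hf al τ j) = XI U κ hf al τ j := funext fun m => chi_RL j m
  rw [e]
  intro hs
  set m0 := 2 ^ sS U (j + 1) with hm0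
  have key : ∀ i, d (initSeg (XI U κ hf al τ j) (m0 + i)) ≤
      d (initSeg (XI U κ hf al τ j) m0) + (4 - 4 / 2 ^ i) := by
    intro i
    induction i with
    | zero => simp
    | succ i ih =>
      have h1 := step_le hG (m := m0 + i) hj2 (lt_ph_of hG (by omega)) hF hd hdF
      have h2 : (2 : ℝ) / 2 ^ (m0 + i) ≤ 2 / 2 ^ i := by
        gcongr
        · norm_num
        · exact Nat.le_add_left _ _
      have h3 : (4 : ℝ) / 2 ^ (i + 1) = 2 / 2 ^ i := by
        rw [pow_succ]
        field_simp
        norm_num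
      have h4 : (4 : ℝ) / 2 ^ i = 2 * (2 / 2 ^ i) := by ring
      rw [← add_assoc, h3]
      rw [h4] at ih
      linarith
  obtain ⟨m', hm', h⟩ := hs (d (initSeg (XI U κ hf al τ j) m0) + 4) m0
  obtain ⟨i, rfl⟩ := Nat.exists_eq_add_of_le hm'
  have h1 := key i
  have h2 : (0 : ℝ) ≤ 4 / 2 ^ i := by positivity
  linarith

end Pool.Agent.Helper79K.TT
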