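import Pool.Agent.Helper79K.TT.Stage

set_option autoImplicit false

namespace Pool.Agent.Helper79K.TT

open Pool.Agent.NPC Pool.Agent.H620R2.Gauge Finset

theorem nv_bin_le (L c : ℕ) : nv (bin L c) ≤ c := by
  induction L generalizing c with
  | zero => simp [bin, nv]
  | succ L ih =>
    rw [bin, nv_append]
    have h1 := ih (c / 2)
    rcases Nat.mod_two_eq_zero_or_one c with h2 | h2
    · simp [h2]; omega
    · simp [h2]; omega

theorem top_le (c : ℕ) (b : Bool) : top c b ≤ c + 1 := by
  unfold top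
  split_ifs <;> omega

theorem le_top (c : ℕ) (b : Bool) : c ≤ top c b := by
  unfold top
  split_ifs <;> omega

theorem top_parity (c : ℕ) (b : Bool) : decide (top c b % 2 = 1) = b := by
  unfold top
  split_ifs with h
  · exact h
  · rcases Nat.mod_two_eq_zero_or_one c with h2 | h2
    · have h3 : (c + 1) % 2 = 1 := by omega
      rw [h2] at h
      rw [h3]
      cases b <;> simp_all
    · have h3 : (c + 1) % 2 = 0 := by omega
      rw [h2] at h
      rw [h3]
      cases b <;> simp_all

variable (U κ : ℕ → ℕ) (hf : ℕ → ℕ → ℕ) (al : ℕ → Alg) (τ : ℕ → Mch)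

/-- the sets of possible segments -/
noncomputable def KI (n : ℕ) : Finset (List Bool) := (St U κ hf al τ (2 ^ sS U n)).K n

/-- the hidden part of the oracle -/
def PI : Set (List Bool) := {v | ∃ m, v ∈ (St U κ hf al τ m).P}

/-- the oracle -/
noncomputable def AA : Oracle := orc (gg U (KI U κ hf al τ)) (PI U κ hf al τ)

variable {U κ hf al τ}

theorem St_succ_K (m : ℕ) : (St U κ hf al τ (m + 1)).K = (Md U κ hf al τ m).K := rfl

theorem K_lt (m n : ℕ) (h : m < 2 ^ sS U n) : (St U κ hf al τ m).K n = ∅ := by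
  induction m with
  | zero => rfl
  | succ m ih =>
    rw [St_succ_K, Md, mid]
    split_ifs with h1
    · show Function.update _ _ _ n = ∅
      rw [Function.update_of_ne]
      · exact ih (by omega)
      · rintro rfl
        omega
    · exact ih (by omega)

theorem K_ge (m n : ℕ) (h : 2 ^ sS U n ≤ m) : (St U κ hf al τ m).K n = KI U κ hf al τ n := by
  induction m, h using Nat.le_induction with
  | base => rfl
  | succ m hm ih =>
    rw [St_succ_K, Md, mid]
    split_ifs with h1
    · show Function.update _ _ _ n = _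
      rw [Function.update_of_ne]
      · exact ih
      · rintro rfl
        omega
    · exact ih

theorem Md_K (hG : Good U κ hf al τ) {m n : ℕ} (h : n ≤ ph U m) :
    (Md U κ hf al τ m).K n = KI U κ hf al τ n := by
  rw [← St_succ_K]
  refine K_ge _ _ ?_
  have h1 := hG.sS_mono.monotone h
  have h2 := hG.ph_le m
  exact (Nat.pow_le_pow_right (by norm_num) (h1.trans h2)).trans (two_pow_len_le m)

/-! ### New strings -/

theorem P_new (hG : Good U κ hf al τ) {m : ℕ} {v : List Bool} (h : v ∈ (St U κ hf al τ (m + 1)).P) :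
    v ∈ (Md U κ hf al τ m).P ∨ (true :: v ∉ (St U κ hf al τ (m + 1)).Z ∧
      ∃ j < ph U m, ∃ y, v = hs j (sx m)
        (bin (hf j (sx m).length) (top (Md U κ hf al τ m).cc (bit U al j m (Md U κ hf al τ m)))) y) := by
  have h1 : v ∈ (fin U hf al m (Md U κ hf al τ m)).P := h
  rcases h1 with h1 | ⟨j, hj, h1⟩
  · exact Or.inl h1
  · right
    have h2 := (fresh_spec hG m).2 j
      (bin (hf j (sx m).length) (top (Md U κ hf al τ m).cc (bit U al j m (Md U κ hf al τ m))))
    refine ⟨?_, j, hj, _, h1⟩
    rw [h1]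
    exact h2

theorem start_eq {m : ℕ} (h : ph U m ≠ 0 ∧ m + 1 = 2 ^ sS U (ph U m)) :
    Md U κ hf al τ m = start U κ τ (ph U m) (St U κ hf al τ m) := by
  rw [Md, mid, if_pos h]

theorem Md_new (hG : Good U κ hf al τ) {m : ℕ} {v : List Bool} (h : v ∈ (Md U κ hf al τ m).P) :
    v ∈ (St U κ hf al τ m).P ∨ (true :: v ∉ (St U κ hf al τ m).Z ∧
      (ph U m ≠ 0 ∧ m + 1 = 2 ^ sS U (ph U m)) ∧ v ∈ legal U (ph U m) (Md U κ hf al τ m).cc) := by
  by_cases h1 : ph U m ≠ 0 ∧ m + 1 = 2 ^ sS U (ph U m)
  · rw [start_eq h1] at h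
    have h2 : v ∈ (St U κ hf al τ m).P ∪ stQ U κ τ (ph U m) (St U κ hf al τ m) := h
    rcases h2 with h2 | h2
    · exact Or.inl h2
    · have h3 := st_spec U κ τ (St U κ hf al τ m) (hG.KK_pos (n := ph U m) (by omega))
      refine Or.inr ⟨h3.2.2.1 v h2, h1, ?_⟩
      rw [start_eq h1]
      exact h3.2.1 h2
  · rw [Md, mid, if_neg h1] at h
    exact Or.inl h

theorem no_new_Z (hG : Good U κ hf al τ) {m m' : ℕ} (hm : m ≤ m') {v : List Bool}
    (h : v ∈ (St U κ hf al τ m').P) (hz : true :: v ∈ (St U κ hf al τ m).Z) : v ∈ (St U κ hf al τ m).P := by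
  induction m', hm using Nat.le_induction with
  | base => exact h
  | succ m' hm ih =>
    rcases P_new hG h with h1 | ⟨h1, _⟩
    · rcases Md_new hG h1 with h2 | ⟨h2, _⟩
      · exact ih h2
      · exact absurd (Z_mono hm hz) h2
    · exact absurd (Z_mono (hm.trans (Nat.le_succ _)) hz) h1

theorem no_new (hG : Good U κ hf al τ) {m : ℕ} {v : List Bool} (h : v ∈ PI U κ hf al τ)
    (hz : true :: v ∈ (St U κ hf al τ m).Z) : v ∈ (St U κ hf al τ m).P := by
  obtain ⟨m', h⟩ := h
  exact no_new_Z hG (le_max_left m m') (P_mono (le_max_right m m') h) hz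

theorem no_new_Md (hG : Good U κ hf al τ) {m : ℕ} {v : List Bool} (h : v ∈ PI U κ hf al τ)
    (hz : true :: v ∈ (St U κ hf al τ (m + 1)).Z) : v ∈ (Md U κ hf al τ m).P := by
  rcases P_new hG (no_new hG h hz) with h1 | ⟨h1, _⟩
  · exact h1
  · exact absurd hz h1

theorem desc (hG : Good U κ hf al τ) {m m' : ℕ} (hm : m ≤ m') {v : List Bool}
    (h : v ∈ (St U κ hf al τ m').P) (h' : v ∉ (St U κ hf al τ m).P) : ∃ k, m ≤ k ∧
      (((ph U k ≠ 0 ∧ k + 1 = 2 ^ sS U (ph U k)) ∧ v ∈ legal U (ph U k) (Md U κ hf al τ k).cc) ∨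
      ∃ j < ph U k, ∃ y, v = hs j (sx k)
        (bin (hf j (sx k).length) (top (Md U κ hf al τ k).cc (bit U al j k (Md U κ hf al τ k)))) y) := by
  induction m', hm using Nat.le_induction with
  | base => exact absurd h h'
  | succ m' hm ih =>
    rcases P_new hG h with h1 | ⟨_, h1⟩
    · rcases Md_new hG h1 with h2 | ⟨_, h2⟩
      · exact ih h2
      · exact ⟨m', hm, Or.inl h2⟩
    · exact ⟨m', hm, Or.inr h1⟩

theorem cc_stable (hG : Good U κ hf al τ) {m k : ℕ} (hm : m ≤ k) (h : ph U k = ph U m) :
    (Md U κ hf al τ k).cc = (Md U κ hf al τ m).cc := by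
  induction k, hm using Nat.le_induction with
  | base => rfl
  | succ k hm ih =>
    have h1 := ph_mono hG hm
    have h2 := ph_mono hG (show k ≤ k + 1 by omega)
    have h3 : ph U k = ph U m := by omega
    rw [← ih h3]
    have h4 : ¬ (ph U (k + 1) ≠ 0 ∧ k + 1 + 1 = 2 ^ sS U (ph U (k + 1))) := by
      rintro ⟨_, h5⟩
      have h6 : 2 ^ sS U (ph U (k + 1)) ≤ k + 1 := by
        rw [h, ← h3]
        exact (Nat.pow_le_pow_right (by norm_num) (hG.ph_le k)).trans (two_pow_len_le k)
      omega
    rw [Md, mid, if_neg h4]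
    rfl

/-! ### Agreement -/

theorem lt_of_aA (hG : Good U κ hf al τ) {n n' : ℕ} (h : aA U n < aA U n') : n < n' := by
  by_contra hc
  have := hG.aA_mono (not_lt.1 hc)
  omega

/-- In stage `m` the adversaries see the final oracle. -/
theorem agree_mid (hG : Good U κ hf al τ) {m : ℕ} {z : List Bool} (hz : z ∈ (St U κ hf al τ (m + 1)).Z)
    (hl : z.length ≤ aA U (ph U m + 1)) : AA U κ hf al τ z = So U (Md U κ hf al τ m) z := by
  refine orc_congr (fun c w hw => GG_congr fun n hn => ?_) fun v hv => ?_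
  · have h1 : n < ph U m + 1 := lt_of_aA hG (by omega)
    exact (Md_K hG (by omega)).symm
  · subst hv
    exact ⟨fun h => no_new_Md hG h hz, fun h => ⟨m + 1, Md_P m h⟩⟩

section window

variable {n m : ℕ} (hn : n ≠ 0) (hm : m + 1 = 2 ^ sS U n)

include hm in
theorem ph_start (hG : Good U κ hf al τ) : ph U m = n :=
  hG.ph_eq (len_first hm).ge (by rw [len_first hm]; exact hG.sS_mono (Nat.lt_succ_self n))

include hm in
theorem St_K_start (hG : Good U κ hf al τ) {n' : ℕ} (h : n' < n) :
    (St U κ hf al τ m).K n' = KI U κ hf al τ n' := by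
  refine K_ge _ _ ?_
  have := Nat.pow_lt_pow_right (a := 2) (by norm_num) (hG.sS_mono h)
  omega

include hn hm in
theorem agree_start (hG : Good U κ hf al τ) {z : List Bool}
    (hz : z ∈ froz U (τ n) n (bo U κ τ n (St U κ hf al τ m)))
    (hl : z.length ≤ aA U n) : AA U κ hf al τ z = bo U κ τ n (St U κ hf al τ m) z := by
  have hph := ph_start hm hG
  have hst : Md U κ hf al τ m = start U κ τ n (St U κ hf al τ m) := by
    have := start_eq (U := U) (κ := κ) (hf := hf) (al := al) (τ := τ) (m := m) ⟨by rw [hph]; exact hn, by rw [hph]; exact hm⟩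
    rwa [hph] at this
  refine orc_congr (fun c w hw => GG_congr fun n' hn' => ?_) fun v hv => ?_
  · exact (St_K_start hm hG (lt_of_aA hG (by omega))).symm
  · subst hv
    have e : (St U κ hf al τ m).P ∪ stQ U κ τ n (St U κ hf al τ m) = (Md U κ hf al τ m).P := by rw [hst]; rfl
    rw [e]
    refine ⟨fun h => no_new_Md hG h (Md_Z m ?_), fun h => ⟨m + 1, Md_P m h⟩⟩
    rw [hst]
    exact Finset.mem_union_right _ hz

include hn hm in
/-- The segment of the final language is among the possible ones. -/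
theorem pat_mem (hG : Good U κ hf al τ) :
    (List.range (nN U n)).map (pat U (τ n) n (AA U κ hf al τ)) ∈ KI U κ hf al τ n := by
  have hn1 : 1 ≤ n := Nat.one_le_iff_ne_zero.2 hn
  have hph := ph_start hm hG
  have hst : Md U κ hf al τ m = start U κ τ n (St U κ hf al τ m) := by
    have := start_eq (U := U) (κ := κ) (hf := hf) (al := al) (τ := τ) (m := m) ⟨by rw [hph]; exact hn, by rw [hph]; exact hm⟩
    rwa [hph] at this
  have hK : KI U κ hf al τ n = ball (nN U n) (pat U (τ n) n (bo U κ τ n (St U κ hf al τ m)))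
      (err U κ (τ n) n) := by
    rw [← Md_K hG (m := m) (n := n) hph.ge, hst]
    exact Function.update_self _ _ _
  rw [hK]
  have hR1 := hG.R1 n hn1
  have hR2 := hG.R2 n hn1
  have hlen : ∀ u ∈ froz U (τ n) n (bo U κ τ n (St U κ hf al τ m)), u.length < (BL (τ n)).eval (xX U n) := by
    intro u hu
    rw [eval_BL]
    rcases Finset.mem_union.1 hu with hu | hu
    · obtain ⟨q, hq, hu⟩ := Finset.mem_biUnion.1 hu
      simp only [AS, Finset.mem_filter, Finset.mem_product, Finset.mem_range] at hq
      have h2 := len_wit (len_xi hq.1.1) hq.2.1 (wt_spec hq.2.2).1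
      have h3 := eval_mono (lb (τ n).1.1) h2
      have h4 := len_qs _ _ _ hu
      omega
    · obtain ⟨i, hi, hu⟩ := Finset.mem_biUnion.1 hu
      have h2 := len_ev (τ := τ n) (len_xi (Finset.mem_range.1 hi)) (bo U κ τ n (St U κ hf al τ m))
      have h3 := eval_mono (lb (τ n).2.1) h2
      have h4 := len_qs _ _ _ hu
      omega
  refine pat_mem_ball (fun u hu => agree_start hn hm hG hu ?_) ?_
  · have := hlen u hu
    omega
  -- the number of answers yes
  have hspec := st_spec U κ τ (St U κ hf al τ m) (hG.KK_pos hn1)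
  have hcc : (Md U κ hf al τ m).cc = stC U κ τ n (St U κ hf al τ m) := by rw [hst]; rfl
  set c := stC U κ τ n (St U κ hf al τ m) with hc
  set Q' : Set (List Bool) := {v | v ∈ PI U κ hf al τ ∧ v ∉ (St U κ hf al τ m).P ∧ v ∈ legal U n (c + 1)}
    with hQ'
  have h1 := hspec.2.2.2 Q' (fun v hv => hv.2.2) fun v hv hz => hv.2.1 (no_new hG hv.1 hz)
  have h2 : AS U (τ n) n (AA U κ hf al τ) =
      AS U (τ n) n (orc (gg U (St U κ hf al τ m).K) ((St U κ hf al τ m).P ∪ Q')) := by
    refine AS_congr fun u hu => ?_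
    refine orc_congr (fun c w hw => GG_congr fun n' hn' => ?_) fun v hv => ?_
    · exact St_K_start hm hG (lt_of_aA hG (by omega))
    · subst hv
      constructor
      · rintro (h3 | h3)
        · exact ⟨m, h3⟩
        · exact h3.1
      · intro h3
        by_cases h4 : v ∈ (St U κ hf al τ m).P
        · exact Or.inl h4
        · refine Or.inr ⟨h3, h4, ?_⟩
          obtain ⟨m', h3⟩ := h3
          obtain ⟨k, hk, h5⟩ := desc hG (le_max_left m m') (P_mono (le_max_right m m') h3) h4
          have hmk := ph_mono hG hk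
          have hul : (true :: v).length < (BL (τ n)).eval (xX U n) := hu
          rw [List.length_cons] at hul
          rcases h5 with ⟨h6, h7⟩ | ⟨j, hj, y, h7⟩
          · obtain ⟨j, x, c', y, e, hj, hx1, hx2, hx4⟩ := h7
            have h8 := length_hs j x c' y
            rw [← e] at h8
            have h9 : ph U k < n + 1 := hG.sS_mono.lt_iff_lt.1 (hx1.trans_lt (by omega))
            have h10 : ph U k = n := by omega
            have h11 : k = m := by
              have := h6.2
              rw [h10] at this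
              omega
            rw [h10] at hj hx1 hx2
            rw [h11, hcc] at hx4
            exact ⟨j, x, c', y, e, hj, hx1, hx2, hx4.trans (Nat.le_succ _)⟩
          · have h8 := length_hs j (sx k)
              (bin (hf j (sx k).length) (top (Md U κ hf al τ k).cc (bit U al j k (Md U κ hf al τ k)))) y
            rw [← h7] at h8
            have h9 : ph U k < n + 1 := hG.sS_mono.lt_iff_lt.1 ((hG.ph_le k).trans_lt (by omega))
            have h10 : ph U k = n := by omega
            rw [h10] at hj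
            refine ⟨j, sx k, _, y, h7, hj, ?_, by omega, ?_⟩
            · rw [← h10]
              exact hG.ph_le k
            · refine (nv_bin_le _ _).trans ((top_le _ _).trans ?_)
              rw [cc_stable hG hk (by omega), hcc]
  rw [h2]
  exact h1

end window

theorem len_KI (hG : Good U κ hf al τ) (n : ℕ) : ∀ u ∈ KI U κ hf al τ n, u.length = bB U n - aA U n := by
  intro u hu
  by_cases hn : n = 0
  · subst hn
    have h0 : (2 : ℕ) ^ sS U 0 = 0 + 1 := by rw [hG.sS_zero]; rfl
    have h1 : KI U κ hf al τ 0 = ∅ := by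
      rw [KI, h0, St_succ_K, Md, mid, if_neg]
      · rfl
      · rintro ⟨h2, _⟩
        apply h2
        refine hG.ph_eq (by rw [hG.sS_zero]; exact Nat.zero_le _) ?_
        have : (sx 0).length = 0 := len_first (by norm_num)
        rw [this]
        exact lt_of_lt_of_le (Nat.succ_pos _) (hG.le_sS _)
    rw [h1] at hu
    simp at hu
  · have hm : 2 ^ sS U n - 1 + 1 = 2 ^ sS U n := Nat.sub_add_cancel Nat.one_le_two_pow
    have hph := ph_start hm hG
    have hst := start_eq (U := U) (κ := κ) (hf := hf) (al := al) (τ := τ) (m := 2 ^ sS U n - 1)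
      ⟨by rw [hph]; exact hn, by rw [hph]; exact hm⟩
    rw [hph] at hst
    rw [← Md_K hG (m := 2 ^ sS U n - 1) (n := n) hph.ge, hst] at hu
    have h1 : u ∈ ball (nN U n) (pat U (τ n) n (bo U κ τ n (St U κ hf al τ (2 ^ sS U n - 1))))
      (err U κ (τ n) n) := by
      have : (start U κ τ n (St U κ hf al τ (2 ^ sS U n - 1))).K n = _ := Function.update_self _ _ _
      rwa [this] at hu
    exact len_ball h1

theorem card_KI (hG : Good U κ hf al τ) (n : ℕ) : (KI U κ hf al τ n).card ≤ 2 ^ aA U n := by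
  by_cases hn : n = 0
  · subst hn
    have h0 : (2 : ℕ) ^ sS U 0 = 0 + 1 := by rw [hG.sS_zero]; rfl
    have h1 : KI U κ hf al τ 0 = ∅ := by
      rw [KI, h0, St_succ_K, Md, mid, if_neg]
      · rfl
      · rintro ⟨h2, _⟩
        apply h2
        refine hG.ph_eq (by rw [hG.sS_zero]; exact Nat.zero_le _) ?_
        have : (sx 0).length = 0 := len_first (by norm_num)
        rw [this]
        exact lt_of_lt_of_le (Nat.succ_pos _) (hG.le_sS _)
    rw [h1]
    simp
  · have hm : 2 ^ sS U n - 1 + 1 = 2 ^ sS U n := Nat.sub_add_cancel Nat.one_le_two_pow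
    have hph := ph_start hm hG
    have hst := start_eq (U := U) (κ := κ) (hf := hf) (al := al) (τ := τ) (m := 2 ^ sS U n - 1)
      ⟨by rw [hph]; exact hn, by rw [hph]; exact hm⟩
    rw [hph] at hst
    rw [← Md_K hG (m := 2 ^ sS U n - 1) (n := n) hph.ge, hst]
    have : (start U κ τ n (St U κ hf al τ (2 ^ sS U n - 1))).K n = _ := Function.update_self _ _ _
    rw [this]
    exact (card_ball _ _ _).trans (hG.R4 n (Nat.one_le_iff_ne_zero.2 hn))

end Pool.Agent.Helper79K.TT
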