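import Pool.Agent.H620R2.Gauge2.Defs
import Pool.Agent.Helper76.Dim.Defs

/-!
# Polynomial-time martingales relative to an oracle; truth-table reductions to `NP`; `P^NP`

Oracles, polynomial time relative to an oracle (`IsFP`, `IsP`) and `NP` relative to an oracle
(`IsNP`) are those of `Pool.Agent.H620R2.Gauge.Defs` and `Pool.Agent.H620R2.Gauge2.Defs`. The
standard enumeration of the strings, gales (a martingale is a gale of index `1`) and their success
on the characteristic sequence of a language are those of `Pool.Agent.Helper76.Dim.Defs`.
-/

namespace Pool.Agent.Helper79K.TT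

open Pool.Agent.NPC Pool.Agent.H620R2.Gauge

/-- The number with the given binary digits, the lowest digit first. -/
def bval : List Bool → ℕ
  | [] => 0
  | b :: l => b.toNat + 2 * bval l

/-- The function `d` is computable in polynomial time relative to the oracle `A`: some function
`F`, computable in polynomial time relative to `A`, gives for every precision `r` (in unary) and
every string `w` the binary digits of a number `n` such that `n / 2 ^ r` differs from `d w` by at
most `1 / 2 ^ r`. -/
def PComp (A : Oracle) (d : List Bool → ℝ) : Prop :=
  ∃ F : List Bool → List Bool, IsFP A F ∧ ∀ (r : ℕ) (w : List Bool),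
    |(bval (F (pairBits (List.replicate r true) w)) : ℝ) / 2 ^ r - d w| ≤ 1 / 2 ^ r

/-- The class `C` has p-measure zero relative to `A`: some martingale, computable in polynomial
time relative to `A`, succeeds on all languages in `C`. -/
def PNull (A : Oracle) (C : Set (Set (List Bool))) : Prop :=
  ∃ d : List Bool → ℝ, Helper76.Dim.IsGale 1 d ∧ PComp A d ∧
    ∀ L ∈ C, Helper76.Dim.Succeeds d (Helper76.Dim.chi L)

/-- The p-dimension of the class `C` relative to `A`. -/
noncomputable def pDim (A : Oracle) (C : Set (Set (List Bool))) : ℝ :=
  sInf {s : ℝ | 0 ≤ s ∧ ∃ d : List Bool → ℝ, Helper76.Dim.IsGale s d ∧ PComp A d ∧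
    ∀ L ∈ C, Helper76.Dim.Succeeds d (Helper76.Dim.chi L)}

open Classical in
/-- The language `L` is polynomial-time truth-table reducible to a language in `NP` relative to
`A`: it is decided in polynomial time relative to `A` with the help of the answers to the
polynomially many nonadaptive questions `⟨1^l, x⟩ ∈ B`, `l < p(|x|)`, for some `B` in `NP`
relative to `A`. -/
def PttNP (A : Oracle) (L : Set (List Bool)) : Prop :=
  ∃ (B : Set (List Bool)) (p : Polynomial ℕ) (H : List Bool → List Bool), IsNP A B ∧ IsFP A H ∧
    ∀ x, x ∈ L ↔ H (pairBits ((List.range (p.eval x.length)).map fun l =>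
      decide (pairBits (List.replicate l true) x ∈ B)) x) = [true]

open Classical in
/-- The language `L` is decided by a polynomial-time algorithm which asks at most `h n` questions,
one after the other, to a language `B` in `NP` relative to `A` on the inputs of length `n`. -/
def PNPq (A : Oracle) (h : ℕ → ℕ) (L : Set (List Bool)) : Prop :=
  ∃ (B : Set (List Bool)) (M : Alg) (V : List Bool → List Bool), IsNP A B ∧ ∀ x,
    M.out (fun z => decide (z ∈ B)) x = some (V x) ∧
    M.run (fun z => decide (z ∈ B)) x (h x.length + 1) [] = some (V x) ∧ (x ∈ L ↔ V x = [true])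

end Pool.Agent.Helper79K.TT
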