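import Pool.Agent.Helper79K.TT.Agree

set_option autoImplicit false

namespace Pool.Agent.Helper79K.TT

open Pool.Agent.NPC Pool.Agent.H620R2.Gauge Finset

theorem nv_app (l m : List Bool) : nv (l ++ m) = nv l * 2 ^ m.length + nv m := by
  induction m using List.reverseRecOn with
  | nil => simp [nv]
  | append_singleton m b ih =>
    rw [← List.append_assoc, nv_append, nv_append, ih, List.length_append, List.length_singleton,
      pow_succ]
    ring

theorem nv_lt (m : List Bool) : nv m < 2 ^ m.length := by
  induction m using List.reverseRecOn with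
  | nil => simp [nv]
  | append_singleton m b ih =>
    rw [nv_append, List.length_append, List.length_singleton, pow_succ]
    cases b
    · simp only [Bool.toNat_false]; omega
    · simp only [Bool.toNat_true]; omega

open Classical in
/-- binary search for the largest element of `S` -/
noncomputable def gr (S : Set (List Bool)) : ℕ → List Bool
  | 0 => []
  | i + 1 => gr S i ++ [decide (∃ c ∈ S, gr S i ++ [true] <+: c)]

theorem length_gr (S : Set (List Bool)) (i : ℕ) : (gr S i).length = i := by
  induction i with
  | zero => rfl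
  | succ i ih => rw [gr, List.length_append, ih]; rfl

open Classical in
theorem gr_eq {S : Set (List Bool)} {L : ℕ} {cm : List Bool} (hcm : cm ∈ S)
    (hS : ∀ c ∈ S, c.length = L) (hmax : ∀ c ∈ S, nv c ≤ nv cm) (i : ℕ) (hi : i ≤ L) :
    gr S i = cm.take i := by
  induction i with
  | zero => rfl
  | succ i ih =>
    have ih := ih (by omega)
    have hl := hS cm hcm
    have hi' : i < cm.length := by omega
    rw [gr, ih, List.take_succ_eq_append_getElem hi']
    have hpre : cm.take (i + 1) = cm.take i ++ [cm[i]] := List.take_succ_eq_append_getElem hi'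
    have h2 : cm = cm.take i ++ [cm[i]] ++ cm.drop (i + 1) := by
      rw [← hpre, List.take_append_drop]
    congr 2
    generalize cm.take i = p at *
    generalize cm.drop (i + 1) = q at *
    generalize cm[i] = b at *
    cases b
    · rw [decide_eq_false_iff_not]
      rintro ⟨c, hc, v, hv⟩
      have h1 := hmax c hc
      have h3 : v.length = q.length := by
        have h4 := congrArg List.length hv
        have h5 := congrArg List.length h2
        rw [hS c hc] at h4
        simp only [List.length_append, List.length_singleton] at h4 h5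
        omega
      rw [← hv, h2, nv_app, nv_app _ q, nv_append, nv_append, h3] at h1
      have h4 := nv_lt q
      simp only [Bool.toNat_true, Bool.toNat_false, add_zero] at h1
      have h6 : (2 * nv p + 1) * 2 ^ q.length = 2 * nv p * 2 ^ q.length + 2 ^ q.length := by
        ring
      rw [h6] at h1
      omega
    · rw [decide_eq_true_iff]
      exact ⟨cm, hcm, q, h2.symm⟩

variable (U κ : ℕ → ℕ) (hf : ℕ → ℕ → ℕ) (al : ℕ → Alg) (τ : ℕ → Mch)

/-- the bits of the hidden language number `j` -/
noncomputable def XI (j m : ℕ) : Bool := decide (j < ph U m) && bit U al j m (Md U κ hf al τ m)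

/-- the hidden language number `j` -/
def RL (j : ℕ) : Set (List Bool) := {x | XI U κ hf al τ j (Pool.Agent.Helper76.Dim.idx x) = true}

variable {U κ hf al τ}

theorem chi_RL (j m : ℕ) : Pool.Agent.Helper76.Dim.chi (RL U κ hf al τ j) m = XI U κ hf al τ j m := by
  simp only [Pool.Agent.Helper76.Dim.chi, RL, Set.mem_ofPred_eq,
    Pool.Agent.Helper76.Dim.idx_str]
  cases XI U κ hf al τ j m <;> simp

theorem ρ_eq (j m : ℕ) :
    (St U κ hf al τ m).ρ j = Pool.Agent.Helper76.Dim.initSeg (XI U κ hf al τ j) m := by
  induction m with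
  | zero => rfl
  | succ m ih =>
    rw [Pool.Agent.Helper76.Dim.initSeg_succ, ← ih]
    have h1 : (St U κ hf al τ (m + 1)).ρ j = (Md U κ hf al τ m).ρ j ++ [XI U κ hf al τ j m] := rfl
    rw [h1, Md, mid_ρ]

variable (U κ hf al τ) in
/-- the thresholds with a witness -/
def SX (j : ℕ) (x : List Bool) : Set (List Bool) :=
  {c | c.length = hf j x.length ∧ ∃ y : List Bool, y.length = yL x ∧ hs j x c y ∈ PI U κ hf al τ}

/-- what is in the hidden part -/
theorem PI_desc (hG : Good U κ hf al τ) {j m : ℕ} {c y : List Bool}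
    (h : hs j (sx m) c y ∈ PI U κ hf al τ) : j < ph U m ∧
      nv c ≤ top (Md U κ hf al τ m).cc (bit U al j m (Md U κ hf al τ m)) := by
  obtain ⟨m', h⟩ := h
  obtain ⟨k, _, h1⟩ := desc hG (Nat.zero_le m') h (fun h0 => h0)
  rcases h1 with ⟨h1, h2⟩ | ⟨j', hj', y', h2⟩
  · obtain ⟨j', x, c', y', e, hj, hx1, hx2, hx4⟩ := h2
    obtain ⟨rfl, rfl, rfl, rfl⟩ := hs_inj e
    have h3 : ph U m = ph U k := hG.ph_eq hx1 hx2
    refine ⟨by omega, hx4.trans (le_trans (le_of_eq ?_) (le_top _ _))⟩
    have hkm : k ≤ m := by
      by_contra hc'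
      have h4 : (sx m).length < sS U (ph U k) := by
        refine len_lt ?_
        omega
      omega
    exact (cc_stable hG hkm h3).symm
  · obtain ⟨rfl, h3, rfl, rfl⟩ := hs_inj h2
    have h4 : m = k := by
      have := congrArg Pool.Agent.Helper76.Dim.idx h3
      simpa [Pool.Agent.Helper76.Dim.idx_str] using this
    subst h4
    exact ⟨hj', nv_bin_le _ _⟩

theorem mem_SX (hG : Good U κ hf al τ) {j m : ℕ} (hj : j < ph U m) :
    bin (hf j (sx m).length) (top (Md U κ hf al τ m).cc (bit U al j m (Md U κ hf al τ m))) ∈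
      SX U κ hf al τ j (sx m) := by
  refine ⟨length_bin _ _, fresh (St U κ hf al τ (m + 1)).Z (sx m), (fresh_spec hG m).1, m + 1, ?_⟩
  exact Or.inr ⟨j, hj, rfl⟩

theorem cc_lt (hG : Good U κ hf al τ) {j m : ℕ} (hj : j < ph U m) :
    (Md U κ hf al τ m).cc + 1 < 2 ^ hf j (sx m).length := by
  have h : ph U m ≠ 0 := by omega
  have hRH := hG.RH (ph U m) j hj (sx m).length (hG.ph_le m)
  set n := ph U m with hn
  have hm : 2 ^ sS U n - 1 + 1 = 2 ^ sS U n := Nat.sub_add_cancel Nat.one_le_two_pow
  have hph := ph_start hm hG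
  have h1 := hG.ph_le m
  rw [← hn] at h1
  have h2 := Nat.pow_le_pow_right (show 0 < 2 by norm_num) h1
  have hle : 2 ^ sS U n - 1 ≤ m := by
    have := two_pow_len_le m
    omega
  rw [cc_stable hG hle (by rw [hph])]
  have hst := start_eq (U := U) (κ := κ) (hf := hf) (al := al) (τ := τ) (m := 2 ^ sS U n - 1)
    ⟨by rw [hph]; exact h, by rw [hph]; exact hm⟩
  rw [hph] at hst
  rw [hst]
  have h3 := (st_spec U κ τ (St U κ hf al τ (2 ^ sS U n - 1))
    (hG.KK_pos (Nat.one_le_iff_ne_zero.2 h))).1
  have h4 := Nat.pow_le_pow_right (show 0 < 2 by norm_num) hRH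
  show stC U κ τ n (St U κ hf al τ (2 ^ sS U n - 1)) + 1 < _
  rw [KK] at h3
  omega

/-- The binary search finds the bit. -/
theorem gr_last (hG : Good U κ hf al τ) (j : ℕ) (x : List Bool) :
    (gr (SX U κ hf al τ j x) (hf j x.length)).getLast?.getD false =
      XI U κ hf al τ j (Pool.Agent.Helper76.Dim.idx x) := by
  obtain ⟨m, rfl⟩ : ∃ m, x = sx m := ⟨_, (Pool.Agent.Helper76.Dim.str_idx x).symm⟩
  have hidx : Pool.Agent.Helper76.Dim.idx (sx m) = m := Pool.Agent.Helper76.Dim.idx_str m
  rw [hidx]
  by_cases hj : j < ph U m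
  · have h1 := cc_lt hG hj
    set t := top (Md U κ hf al τ m).cc (bit U al j m (Md U κ hf al τ m)) with ht
    have h2 : t < 2 ^ hf j (sx m).length := (top_le _ _).trans_lt h1
    have h3 : nv (bin (hf j (sx m).length) t) = t := nv_bin _ _ h2
    have hpos : 0 < hf j (sx m).length := by
      by_contra hc
      have : hf j (sx m).length = 0 := by omega
      rw [this] at h1
      simp at h1
    obtain ⟨L, hL⟩ : ∃ L, hf j (sx m).length = L + 1 := ⟨hf j (sx m).length - 1, by omega⟩
    have h4 := gr_eq (mem_SX (τ := τ) hG hj) (fun c hc => hc.1) (fun c hc => by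
      obtain ⟨hc1, y, _, hy⟩ := hc
      rw [← ht, h3]
      exact (PI_desc hG hy).2) (hf j (sx m).length) le_rfl
    rw [h4, ← ht, List.take_of_length_le (by rw [length_bin]), hL, bin]
    simp only [List.getLast?_append, List.getLast?_singleton, Option.some_or, Option.getD_some]
    rw [ht, top_parity, XI, decide_eq_true hj, Bool.true_and]
  · have h0 : ∀ i, gr (SX U κ hf al τ j (sx m)) i = List.replicate i false := by
      intro i
      induction i with
      | zero => rfl
      | succ i ih =>
        rw [gr, List.replicate_succ', ih]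
        congr 2
        rw [decide_eq_false_iff_not]
        rintro ⟨c, ⟨hc1, y, _, hy⟩, _⟩
        exact hj (PI_desc hG hy).1
    rw [h0, XI, decide_eq_false hj, Bool.false_and]
    cases hf j (sx m).length with
    | zero => rfl
    | succ L => rw [List.replicate_succ']; simp

end Pool.Agent.Helper79K.TT
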