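import Pool.Agent.Helper79K.TT.Delta

set_option autoImplicit false

namespace Pool.Agent.Helper79K.TT

open Pool.Agent.NPC Pool.Agent.H620R2.Gauge Finset H568R2

variable (U κ : ℕ → ℕ) (hf : ℕ → ℕ → ℕ) (al : ℕ → Alg) (τ : ℕ → Mch)

/-- the language of the questions of the binary search -/
def BQ (h : ℕ → ℕ) (pd : List Bool → List Bool) (j : ℕ) : Set (List Bool) :=
  {z | ∃ x a e y : List Bool, z = pairBits x a ∧ a.length + e.length = h x.length ∧
    y.length = yL (pd x) ∧ hs j (pd x) (a ++ e) y ∈ PI U κ hf al τ}

/-- the number of questions -/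
def nq (E : List Bool → List Bool) (x : List Bool) : ℕ := (E (List.replicate x.length true)).length

theorem upoly_nq {E : List Bool → List Bool} (hE : PolyTime E) : UPoly (nq E) :=
  UPoly.length ((H622R2.poly_of_polyTime hE).comp (poly_rep (UPoly.length Poly.id)))

theorem nq_bound {E : List Bool → List Bool} (hE : PolyTime E) :
    ∃ b : Polynomial ℕ, ∀ x, nq E x + 1 ≤ b.eval x.length := by
  have h0 : Poly (fun x : List Bool => E (List.replicate x.length true)) :=
    (H622R2.poly_of_polyTime hE).comp (poly_rep (UPoly.length Poly.id))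
  obtain ⟨q, hq⟩ := h0.sz_le
  exact ⟨_, fun x => A2.sz_eval_le ((length_lt_sz _).trans_le (hq x))⟩

theorem upoly_yL : UPoly yL := by
  have h3 : UPoly (fun x : List Bool => x.length) := UPoly.length Poly.id
  have h4 := ((h3.mul h3).add h3).add (UPoly.const 2)
  have e : yL = fun x : List Bool => x.length * x.length + x.length + 2 := by
    funext x
    simp only [yL, pow_two]
  rw [e]
  exact h4

theorem yL_bound {pd : List Bool → List Bool} (hpd : Poly pd) :
    ∃ b : Polynomial ℕ, ∀ x, yL (pd x) + 1 ≤ b.eval x.length := by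
  have h0 : Poly (fun x : List Bool => List.replicate (yL (pd x)) true) :=
    poly_rep (upoly_yL.comp hpd)
  obtain ⟨q, hq⟩ := h0.sz_le
  refine ⟨_, fun x => A2.sz_eval_le (?_ : yL (pd x) + 1 ≤ q.eval (sz x))⟩
  have h1 := (length_lt_sz (List.replicate (yL (pd x)) true)).trans_le (hq x)
  rwa [List.length_replicate] at h1

/-- the question of the verifier -/
def vQ (pd : List Bool → List Bool) (j : ℕ) (z : List Bool) : List (List Bool) :=
  [true :: hs j (pd (unpair (unpair z).2).1) ((unpair (unpair z).2).2 ++ (unpair (unpair z).1).1)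
    (unpair (unpair z).1).2]

/-- the answer of the verifier -/
def vH (E pd : List Bool → List Bool) (z a : List Bool) : List Bool :=
  [decide ((unpair z).2 = pairBits (unpair (unpair z).2).1 (unpair (unpair z).2).2) &&
    (decide ((unpair (unpair z).2).2.length + (unpair (unpair z).1).1.length =
      nq E (unpair (unpair z).2).1) &&
    (decide ((unpair (unpair z).1).2.length = yL (pd (unpair (unpair z).2).1)) &&
    decide (a.head? = some true)))]

theorem poly_vQ {pd : List Bool → List Bool} (hpd : Poly pd) (j : ℕ) : Poly (vQ pd j) := by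
  have h1 : Poly (fun z => (unpair z).1) := Poly.fst poly_unpair
  have h2 : Poly (fun z => (unpair z).2) := Poly.snd poly_unpair
  have hx := h1.comp h2
  have ha := h2.comp h2
  have he := h1.comp h1
  have hy := h2.comp h1
  refine Poly.cons (Poly.cons (NPC.Poly.const true) ?_) (NPC.Poly.const [])
  unfold hs
  exact H622R2.poly_pairBits (NPC.Poly.const _) (H622R2.poly_pairBits (hpd.comp hx)
    (H622R2.poly_pairBits (Poly.append ha he) hy))

theorem poly_vH {E pd : List Bool → List Bool} (hE : PolyTime E) (hpd : Poly pd) :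
    Poly (fun q : List Bool × List Bool => vH E pd q.1 q.2) := by
  have h1 : Poly (fun z => (unpair z).1) := Poly.fst poly_unpair
  have h2 : Poly (fun z => (unpair z).2) := Poly.snd poly_unpair
  have hz : Poly (fun q : List Bool × List Bool => q.1) := Poly.fst Poly.id
  have hx := (h1.comp h2).comp hz
  have ha := (h2.comp h2).comp hz
  have he := (h1.comp h1).comp hz
  have hy := (h2.comp h1).comp hz
  unfold vH
  refine Poly.cons (Poly.and (Poly.decide_eq (h2.comp hz) (H622R2.poly_pairBits hx ha))
    (Poly.and (Poly.decide_eq (Poly.add (Poly.length ha) (Poly.length he))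
      ((upoly_nq hE).comp hx).toPoly)
    (Poly.and (Poly.decide_eq (Poly.length hy) ((upoly_yL.comp hpd).comp hx).toPoly)
    (Poly.decide_eq (Poly.head? (Poly.snd Poly.id)) (NPC.Poly.const _))))) (NPC.Poly.const [])

open Classical in
theorem isNP_BQ {h : ℕ → ℕ} {pd : List Bool → List Bool} {j : ℕ} {E : List Bool → List Bool}
    (hE : PolyTime E) (hEh : ∀ l, (E (List.replicate l true)).length = h l) (hpd : Poly pd) :
    IsNP (AA U κ hf al τ) (BQ U κ hf al τ h pd j) := by
  obtain ⟨b, hb⟩ := nq_bound hE
  obtain ⟨b', hb'⟩ := yL_bound hpd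
  have hnq : ∀ x, nq E x = h x.length := fun x => hEh x.length
  refine ⟨fun z => vH E pd z ((vQ pd j z).map (AA U κ hf al τ)), 2 * b + b',
    IsFP.tt (H := fun q => vH E pd q.1 q.2) (poly_vQ hpd j) (poly_vH hE hpd), fun z => ?_⟩
  have key : ∀ x a e y : List Bool,
      vH E pd (pairBits (pairBits e y) (pairBits x a))
        ((vQ pd j (pairBits (pairBits e y) (pairBits x a))).map (AA U κ hf al τ)) = [true] ↔
      (a.length + e.length = h x.length ∧ y.length = yL (pd x) ∧
        hs j (pd x) (a ++ e) y ∈ PI U κ hf al τ) := by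
    intro x a e y
    simp only [vH, vQ, unpair_pairBits, hnq, List.map_cons, List.map_nil, List.head?_cons,
      decide_true, Bool.true_and, List.cons.injEq, Bool.and_eq_true, decide_eq_true_eq, and_true,
      Option.some.injEq]
    rw [AA, orc_true]
    simp only [decide_eq_true_eq]
  constructor
  · rintro ⟨x, a, e, y, rfl, h1, h2, h3⟩
    refine ⟨pairBits e y, ?_, (key x a e y).2 ⟨h1, h2, h3⟩⟩
    simp only [A2.length_pairBits, Polynomial.eval_add, Polynomial.eval_mul,
      Polynomial.eval_ofNat]
    have h4 := hb x
    have h6 := hb' x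
    rw [hnq] at h4
    have h5 : b.eval x.length ≤ b.eval (2 * x.length + a.length + 1) := eval_mono b (by omega)
    have h7 : b'.eval x.length ≤ b'.eval (2 * x.length + a.length + 1) := eval_mono b' (by omega)
    omega
  · rintro ⟨w, _, hw⟩
    have h1 : z = pairBits (unpair z).1 (unpair z).2 := by
      have h2 := hw
      simp only [vH, unpair_pairBits, List.cons.injEq, Bool.and_eq_true, decide_eq_true_eq] at h2
      exact h2.1.1
    refine ⟨(unpair z).1, (unpair z).2, (unpair w).1, (unpair w).2, h1, ?_⟩
    simp only [vH, vQ, unpair_pairBits, hnq, List.map_cons, List.map_nil, List.head?_cons,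
      List.cons.injEq, Bool.and_eq_true, decide_eq_true_eq, and_true, Option.some.injEq] at hw
    obtain ⟨_, h2, h3, h4⟩ := hw
    refine ⟨h2, h3, ?_⟩
    rw [AA, orc_true] at h4
    exact of_decide_eq_true h4

/-! ### The binary search -/

/-- the next action of the binary search; the inputs of length less than `N` are answered by means
of the list `T` -/
def dD (E : List Bool → List Bool) (N : ℕ) (T : List (List Bool)) (z : List Bool) : List Bool :=
  if (unpair z).1.length < N then true :: [decide ((unpair z).1 ∈ T)]
  else if (unpair z).2.length < nq E (unpair z).1 then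
    false :: pairBits (unpair z).1 ((unpair z).2 ++ [true])
  else true :: [(unpair z).2.reverse.head?.getD false]

theorem poly_mem (T : List (List Bool)) : Poly (fun x : List Bool => decide (x ∈ T)) := by
  induction T with
  | nil => exact (NPC.Poly.const false).congr fun x => by simp
  | cons t T ih =>
    refine (Poly.ite (Poly.decide_eq Poly.id (NPC.Poly.const t)) (NPC.Poly.const true) ih).congr ?_
    intro x
    by_cases h : x = t
    · simp [h]
    · simp [h]

theorem poly_dD {E : List Bool → List Bool} (hE : PolyTime E) (N : ℕ) (T : List (List Bool)) :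
    Poly (dD E N T) := by
  have h1 : Poly (fun z => (unpair z).1) := Poly.fst poly_unpair
  have h2 : Poly (fun z => (unpair z).2) := Poly.snd poly_unpair
  refine Poly.ite (Poly.decide_lt (Poly.length h1) (NPC.Poly.const N))
    (Poly.cons (NPC.Poly.const _) (Poly.cons ((poly_mem T).comp h1) (NPC.Poly.const []))) ?_
  exact Poly.ite (Poly.decide_lt (Poly.length h2) ((upoly_nq hE).comp h1).toPoly)
    (Poly.cons (NPC.Poly.const _) (H622R2.poly_pairBits h1 (Poly.append h2 (NPC.Poly.const _))))
    (Poly.cons (NPC.Poly.const _) (Poly.cons (Poly.optGetD (Poly.head? (Poly.reverse h2))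
      (NPC.Poly.const _)) (NPC.Poly.const [])))

/-- the binary search -/
noncomputable def srch (E : List Bool → List Bool) (hE : PolyTime E) (N : ℕ)
    (T : List (List Bool)) : Alg where
  D := dD E N T
  poly := H622R2.polyTime_of_poly_list (poly_dD hE N T)
  p := (nq_bound hE).choose

variable {U κ hf al τ}

open Classical in
theorem srch_run {h : ℕ → ℕ} {pd : List Bool → List Bool} {j : ℕ} {E : List Bool → List Bool}
    (hE : PolyTime E) (hEh : ∀ l, (E (List.replicate l true)).length = h l)
    (hj : ∀ x, hf j (pd x).length = h x.length) {N : ℕ} (T : List (List Bool)) (x : List Bool)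
    (hN : N ≤ x.length) (i : ℕ) (hi : i ≤ h x.length) :
    (srch E hE N T).run (fun z => decide (z ∈ BQ U κ hf al τ h pd j)) x (h x.length + 1) [] =
      (srch E hE N T).run (fun z => decide (z ∈ BQ U κ hf al τ h pd j)) x (h x.length - i + 1)
        (gr (SX U κ hf al τ j (pd x)) i) := by
  induction i with
  | zero => rfl
  | succ i ih =>
    rw [ih (by omega)]
    have e : h x.length - i + 1 = (h x.length - (i + 1) + 1) + 1 := by omega
    have h1 : (srch E hE N T).D (pairBits x (gr (SX U κ hf al τ j (pd x)) i)) =
        false :: pairBits x (gr (SX U κ hf al τ j (pd x)) i ++ [true]) := by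
      show dD E N T _ = _
      rw [dD, unpair_pairBits]
      simp only []
      rw [if_neg (not_lt.2 hN), if_pos (by rw [length_gr, nq, hEh]; omega)]
    rw [e]
    conv_lhs => rw [Alg.run, h1]
    show (srch E hE N T).run _ x _ (gr (SX U κ hf al τ j (pd x)) i ++ [_]) = _
    rw [gr]
    congr 3
    refine decide_eq_decide.2 ?_
    constructor
    · rintro ⟨x', a', f, y, h2, h3, h4, h5⟩
      have h6 := congrArg unpair h2
      rw [unpair_pairBits, unpair_pairBits, Prod.mk.injEq] at h6
      obtain ⟨rfl, rfl⟩ := h6
      refine ⟨_, ⟨?_, y, h4, h5⟩, List.prefix_append _ _⟩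
      rw [List.length_append, hj]
      exact h3
    · rintro ⟨c, ⟨h2, y, h3, h4⟩, f, h5⟩
      refine ⟨x, _, f, y, rfl, ?_, h3, ?_⟩
      · rw [← List.length_append, h5, h2, hj]
      · rw [h5]
        exact h4

open Classical in
theorem isPNPq_of (hG : Good U κ hf al τ) {h : ℕ → ℕ} {pd : List Bool → List Bool} {j : ℕ}
    {E : List Bool → List Bool} (hE : PolyTime E)
    (hEh : ∀ l, (E (List.replicate l true)).length = h l) (hpd : Poly pd)
    (hj : ∀ x, hf j (pd x).length = h x.length) {L : Set (List Bool)} {N : ℕ}
    (hL : ∀ x, N ≤ x.length →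
      (x ∈ L ↔ XI U κ hf al τ j (Pool.Agent.Helper76.Dim.idx (pd x)) = true)) :
    PNPq (AA U κ hf al τ) h L := by
  have hfin : {x : List Bool | x.length < N ∧ x ∈ L}.Finite :=
    (List.finite_length_lt Bool N).subset fun x hx => hx.1
  obtain ⟨T, hT⟩ : ∃ T : List (List Bool), ∀ x, x ∈ T ↔ x.length < N ∧ x ∈ L :=
    ⟨hfin.toFinset.toList, fun x => by simp⟩
  refine ⟨BQ U κ hf al τ h pd j, srch E hE N T,
    fun x => if x.length < N then [decide (x ∈ T)] else
      [(gr (SX U κ hf al τ j (pd x)) (h x.length)).getLast?.getD false],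
    isNP_BQ U κ hf al τ hE hEh hpd, fun x => ?_⟩
  rcases lt_or_ge x.length N with hN | hN
  · have h0 : ∀ n, (srch E hE N T).run (fun z => decide (z ∈ BQ U κ hf al τ h pd j)) x (n + 1) [] =
        some [decide (x ∈ T)] := by
      intro n
      have h3 : (srch E hE N T).D (pairBits x []) = true :: [decide (x ∈ T)] := by
        show dD E N T _ = _
        rw [dD, unpair_pairBits]
        simp only []
        rw [if_pos hN]
      rw [Alg.run, h3]
    have h1 := (nq_bound hE).choose_spec x
    simp only [if_pos hN]
    refine ⟨?_, h0 _, ?_⟩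
    · refine Alg.run_mono _ _ _ _ _ _ _ h1 (h0 _)
    · simp only [List.cons.injEq, and_true, decide_eq_true_eq, hT, hN, true_and]
  · have h0 : (srch E hE N T).run (fun z => decide (z ∈ BQ U κ hf al τ h pd j)) x
        (h x.length + 1) [] =
        some [(gr (SX U κ hf al τ j (pd x)) (h x.length)).getLast?.getD false] := by
      have h2 := srch_run (U := U) (κ := κ) (al := al) (τ := τ) hE hEh hj T x hN (h x.length) le_rfl
      rw [h2, Nat.sub_self]
      have h3 : (srch E hE N T).D (pairBits x (gr (SX U κ hf al τ j (pd x)) (h x.length))) =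
          true :: [(gr (SX U κ hf al τ j (pd x)) (h x.length)).reverse.head?.getD false] := by
        show dD E N T _ = _
        rw [dD, unpair_pairBits]
        simp only []
        rw [if_neg (not_lt.2 hN), if_neg (by rw [length_gr, nq, hEh]; omega)]
      rw [Alg.run, h3, List.head?_reverse]
    simp only [if_neg (not_lt.2 hN)]
    refine ⟨?_, h0, ?_⟩
    · have h1 := (nq_bound hE).choose_spec x
      rw [nq, hEh] at h1
      exact Alg.run_mono _ _ _ _ _ _ _ h1 h0
    · have h2 := gr_last hG j (pd x)
      rw [hj] at h2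
      rw [h2, hL x hN]
      simp only [List.cons.injEq, and_true]

end Pool.Agent.Helper79K.TT
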