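import Pool.Agent.Helper79K.TT.Seg

set_option autoImplicit false

namespace Pool.Agent.Helper79K.TT

open Pool.Agent.NPC Pool.Agent.H620R2.Gauge Finset

/-- a nonadaptive reduction to a language in `NP`: the algorithm for `NP` with the bound for the
witnesses, and the evaluating algorithm with the number of questions -/
abbrev Mch : Type := (Alg × Polynomial ℕ) × (Alg × Polynomial ℕ)

/-- the nondeterministic algorithm accepts `z` -/
def acc (τ : Mch) (A : Oracle) (z : List Bool) : Prop :=
  ∃ w : List Bool, w.length ≤ τ.1.2.eval z.length ∧ τ.1.1.out A (pairBits w z) = some [true]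

/-- the question number `l` of the input `x` -/
def que (x : List Bool) (l : ℕ) : List Bool := pairBits (List.replicate l true) x

open Classical in
/-- the answers -/
noncomputable def ans (τ : Mch) (A : Oracle) (x : List Bool) : List Bool :=
  (List.range (τ.2.2.eval x.length)).map fun l => decide (acc τ A (que x l))

/-- the reduction accepts `x` -/
def lg (τ : Mch) (A : Oracle) (x : List Bool) : Prop :=
  τ.2.1.out A (pairBits (ans τ A x) x) = some [true]

/-- length of the questions to the language in `NP` -/
noncomputable def PZ (τ : Mch) : Polynomial ℕ :=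
  Polynomial.C 2 * τ.2.2 + Polynomial.C 1 + Polynomial.X

/-- length of the inputs of the algorithm for `NP` -/
noncomputable def PW (τ : Mch) : Polynomial ℕ :=
  Polynomial.C 2 * (τ.1.2.comp (PZ τ)) + Polynomial.C 1 + PZ τ

/-- bound for the length of the questions to the oracle -/
noncomputable def BL (τ : Mch) : Polynomial ℕ := (lb τ.1.1).comp (PW τ) + (lb τ.2.1).comp (PZ τ)

/-- bound for the number of rounds -/
noncomputable def BR (τ : Mch) : Polynomial ℕ := τ.1.1.p.comp (PW τ) + τ.2.1.p.comp (PZ τ)

theorem length_que (x : List Bool) (l : ℕ) : (que x l).length = 2 * l + x.length + 1 := by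
  rw [que, A2.length_pairBits, List.length_replicate]

theorem length_ans (τ : Mch) (A : Oracle) (x : List Bool) :
    (ans τ A x).length = τ.2.2.eval x.length := by simp [ans]

theorem eval_PZ (τ : Mch) (X : ℕ) : (PZ τ).eval X = 2 * τ.2.2.eval X + 1 + X := by
  simp [PZ]

theorem eval_PW (τ : Mch) (X : ℕ) :
    (PW τ).eval X = 2 * τ.1.2.eval ((PZ τ).eval X) + 1 + (PZ τ).eval X := by
  simp [PW]

theorem eval_BL (τ : Mch) (X : ℕ) :
    (BL τ).eval X = (lb τ.1.1).eval ((PW τ).eval X) + (lb τ.2.1).eval ((PZ τ).eval X) := by
  simp [BL]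

theorem eval_BR (τ : Mch) (X : ℕ) :
    (BR τ).eval X = τ.1.1.p.eval ((PW τ).eval X) + τ.2.1.p.eval ((PZ τ).eval X) := by
  simp [BR]

variable {τ : Mch} {x : List Bool} {X l : ℕ}

theorem len_que (hx : x.length ≤ X) (hl : l < τ.2.2.eval x.length) :
    (que x l).length ≤ (PZ τ).eval X := by
  have h1 := eval_mono τ.2.2 hx
  rw [length_que, eval_PZ]
  omega

theorem len_wit (hx : x.length ≤ X) (hl : l < τ.2.2.eval x.length) {w : List Bool}
    (hw : w.length ≤ τ.1.2.eval (que x l).length) :
    (pairBits w (que x l)).length ≤ (PW τ).eval X := by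
  have h1 := len_que hx hl
  have h2 := eval_mono τ.1.2 h1
  rw [A2.length_pairBits, eval_PW]
  omega

theorem len_ev (hx : x.length ≤ X) (A : Oracle) :
    (pairBits (ans τ A x) x).length ≤ (PZ τ).eval X := by
  have h1 := eval_mono τ.2.2 hx
  rw [A2.length_pairBits, eval_PZ, length_ans]
  omega

/-- witnesses are preserved if the questions of the run are answered in the same way -/
theorem acc_of_qs {A A' : Oracle} {z w : List Bool} (hw : w.length ≤ τ.1.2.eval z.length)
    (h : τ.1.1.out A (pairBits w z) = some [true])
    (hA : ∀ u ∈ qs τ.1.1 A (pairBits w z), A' u = A u) : acc τ A' z :=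
  ⟨w, hw, by rw [out_qs hA]; exact h⟩

theorem acc_mono {A A' : Oracle} (hx : x.length ≤ X) (hl : l < τ.2.2.eval x.length)
    (hA : ∀ u : List Bool, u.length < (BL τ).eval X → A' u = A u) (h : acc τ A (que x l)) :
    acc τ A' (que x l) := by
  obtain ⟨w, hw, h⟩ := h
  refine acc_of_qs hw h fun u hu => hA u ?_
  have h1 := len_qs _ _ _ hu
  have h2 := eval_mono (lb τ.1.1) (len_wit hx hl hw)
  rw [eval_BL]
  omega

theorem acc_congr {A A' : Oracle} (hx : x.length ≤ X) (hl : l < τ.2.2.eval x.length)
    (hA : ∀ u : List Bool, u.length < (BL τ).eval X → A' u = A u) :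
    acc τ A (que x l) ↔ acc τ A' (que x l) :=
  ⟨acc_mono hx hl hA, acc_mono hx hl fun u hu => (hA u hu).symm⟩

/-! ### Words close to a given one -/

open Classical in
/-- the words which differ from the word given by `f` in at most `e` places -/
noncomputable def ball (N : ℕ) (f : ℕ → Bool) (e : ℕ) : Finset (List Bool) :=
  (Finset.univ : Finset (Fin e → Fin (N + 1))).image fun g =>
    (List.range N).map fun i => xor (f i) (decide (∃ k, (g k : ℕ) = i))

theorem card_ball (N : ℕ) (f : ℕ → Bool) (e : ℕ) : (ball N f e).card ≤ (N + 1) ^ e := by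
  refine Finset.card_image_le.trans (le_of_eq ?_)
  simp

theorem len_ball {N : ℕ} {f : ℕ → Bool} {e : ℕ} {κ : List Bool} (h : κ ∈ ball N f e) :
    κ.length = N := by
  obtain ⟨g, _, rfl⟩ := Finset.mem_image.1 h
  simp

theorem mem_ball {N : ℕ} {f f' : ℕ → Bool} {e : ℕ}
    (h : ((range N).filter fun i => f' i ≠ f i).card ≤ e) :
    (List.range N).map f' ∈ ball N f e := by
  classical
  set D := (range N).filter fun i => f' i ≠ f i with hD
  refine Finset.mem_image.2 ⟨fun k => ⟨min (D.toList.getD k N) N, by omega⟩,
    Finset.mem_univ _, ?_⟩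
  refine List.map_congr_left fun i hi => ?_
  rw [List.mem_range] at hi
  have key : (∃ k : Fin e, min (D.toList.getD k N) N = i) ↔ f' i ≠ f i := by
    constructor
    · rintro ⟨k, hk⟩
      have h1 : D.toList.getD k N = i := by omega
      have h2 : (k : ℕ) < D.toList.length := by
        by_contra hc
        rw [List.getD_eq_default _ _ (by omega)] at h1
        omega
      rw [List.getD_eq_getElem _ _ h2] at h1
      have h3 : i ∈ D := by
        rw [← Finset.mem_toList, ← h1]
        exact List.getElem_mem h2
      exact (Finset.mem_filter.1 h3).2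
    · intro h1
      have h2 : i ∈ D.toList := by
        rw [Finset.mem_toList, hD, Finset.mem_filter]
        exact ⟨Finset.mem_range.2 hi, h1⟩
      obtain ⟨k, hk, h3⟩ := List.getElem_of_mem h2
      have h4 : D.toList.length = D.card := Finset.length_toList D
      refine ⟨⟨k, by omega⟩, ?_⟩
      simp only
      rw [List.getD_eq_getElem _ _ hk, h3]
      omega
  simp only [key]
  cases h1 : f i <;> cases h2 : f' i <;> simp

end Pool.Agent.Helper79K.TT
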