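import Pool.Agent.Helper79K.TT.Param

set_option autoImplicit false

namespace Pool.Agent.Helper79K.TT

open Pool.Agent.NPC Pool.Agent.H620R2.Gauge Finset
open Pool.Agent.Helper76.Dim (IsGale Succeeds initSeg chi drop_take_initSeg)

theorem exists_mch : ∃ f : ℕ → Mch, Function.Surjective f := by
  have h1 := CC.poly_countable
  have hne : Nonempty Alg := by
    obtain ⟨M, _⟩ := IsFP.of_poly (A := fun _ => false) (F := fun x => x) Poly.id
    exact ⟨M⟩
  exact exists_surjective_nat _

variable {U κ : ℕ → ℕ} {hf : ℕ → ℕ → ℕ} {al : ℕ → Alg} {τ : ℕ → Mch}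

theorem acc_iff {A : Oracle} {M : Alg} {q : Polynomial ℕ} {V : List Bool → List Bool}
    {B : Set (List Bool)} (hM : ∀ x, M.out A x = some (V x))
    (hB : ∀ z, z ∈ B ↔ ∃ w : List Bool, w.length ≤ q.eval z.length ∧ V (pairBits w z) = [true])
    (H : Alg × Polynomial ℕ) (z : List Bool) : acc ((M, q), H) A z ↔ z ∈ B := by
  rw [hB, acc]
  refine exists_congr fun w => and_congr_right fun _ => ?_
  show M.out A _ = _ ↔ _
  rw [hM]
  simp

/-- The gales succeed. -/
theorem gg_succeeds (hG : Good U κ hf al τ) {f : ℕ → Mch} (hsurj : Function.Surjective f)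
    (hτ : ∀ n, τ n = f n.unpair.1) {L : Set (List Bool)} (hL : PttNP (AA U κ hf al τ) L) (c : ℕ) :
    Succeeds (gg U (KI U κ hf al τ) c) (chi L) := by
  classical
  obtain ⟨B, p, H, ⟨V, q, ⟨MV, hMV⟩, hB⟩, ⟨MH, hMH⟩, hL⟩ := hL
  obtain ⟨e, he⟩ := hsurj ((MV, q), (MH, p))
  refine GG_succeeds (a := aA U) (b := bB U) (fun n => rfl) hG.succ_le_aA (card_KI hG) ?_ c
  rw [Filter.frequently_atTop]
  intro k
  refine ⟨Nat.pair e (k + 1), (Nat.le_succ k).trans (Nat.right_le_pair _ _), ?_⟩
  set n := Nat.pair e (k + 1) with hn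
  have hn0 : n ≠ 0 := by
    have := Nat.right_le_pair e (k + 1)
    omega
  have hτn : τ n = ((MV, q), (MH, p)) := by rw [hτ, hn, Nat.unpair_pair, he]
  have hm : 2 ^ sS U n - 1 + 1 = 2 ^ sS U n := Nat.sub_add_cancel Nat.one_le_two_pow
  have h1 := pat_mem hn0 hm hG
  have h2 : seg (aA U) (bB U) n (initSeg (chi L) (bB U n)) =
      (List.range (nN U n)).map (pat U (τ n) n (AA U κ hf al τ)) := by
    have h3 := aA_le_bB (U := U) n
    rw [seg, drop_take_initSeg _ (by omega)]
    refine List.map_congr_left fun i _ => ?_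
    refine decide_eq_decide.2 ?_
    show xi U n i ∈ L ↔ lg (τ n) (AA U κ hf al τ) (xi U n i)
    rw [hL, lg, hτn]
    have h4 : ans ((MV, q), (MH, p)) (AA U κ hf al τ) (xi U n i) =
        (List.range (p.eval (xi U n i).length)).map fun l =>
          decide (pairBits (List.replicate l true) (xi U n i) ∈ B) := by
      refine List.map_congr_left fun l _ => ?_
      exact decide_eq_decide.2 (acc_iff hMV hB (MH, p) (que (xi U n i) l))
    rw [h4]
    show _ ↔ MH.out _ _ = _
    rw [hMH]
    simp
  rw [h2]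
  exact h1

/-! ### Computations in exponential time -/

/-- the algorithm whose number of rounds is given in unary as a part of the input -/
noncomputable def pdAlg (M : Alg) : Alg where
  D := fun u => M.D (pairBits (unpair (unpair u).1).2 (unpair u).2)
  poly := by
    have h1 : Poly (fun z => (unpair z).1) := Poly.fst poly_unpair
    have h2 : Poly (fun z => (unpair z).2) := Poly.snd poly_unpair
    exact H622R2.polyTime_of_poly_list ((H622R2.poly_of_polyTime M.poly).comp
      (H622R2.poly_pairBits (h2.comp h1) h2))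
  p := Polynomial.X

theorem pdAlg_run (M : Alg) (A : Oracle) (u x : List Bool) (n : ℕ) (a : List Bool) :
    (pdAlg M).run A (pairBits u x) n a = M.run A x n a := by
  induction n generalizing a with
  | zero => rfl
  | succ n ih =>
    have h1 : (pdAlg M).D (pairBits (pairBits u x) a) = M.D (pairBits x a) := by
      show M.D _ = _
      rw [unpair_pairBits, unpair_pairBits]
    rw [Alg.run, Alg.run, h1]
    rcases M.D (pairBits x a) with _ | ⟨c, q⟩
    · rfl
    · cases c with
      | true => rfl
      | false => exact ih _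

/-- the padded input -/
def pdx (p : Polynomial ℕ) (x : List Bool) : List Bool :=
  pairBits (List.replicate (p.eval x.length) true) x

theorem poly_pdx (p : Polynomial ℕ) : Poly (pdx p) :=
  H622R2.poly_pairBits (poly_rep ((UPoly.length Poly.id).eval p)) Poly.id

theorem length_pdx (p : Polynomial ℕ) (x : List Bool) :
    (pdx p x).length = 2 * p.eval x.length + x.length + 1 := by
  rw [pdx, A2.length_pairBits, List.length_replicate]

/-- the length before padding -/
noncomputable def ul (p : Polynomial ℕ) (l : ℕ) : ℕ :=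
  Nat.findGreatest (fun n => 2 * p.eval n + n + 1 ≤ l) l

theorem ul_pdx (p : Polynomial ℕ) (x : List Bool) : ul p (pdx p x).length = x.length := by
  rw [length_pdx, ul]
  refine le_antisymm ?_ (Nat.le_findGreatest (by omega) le_rfl)
  by_contra hc
  rw [not_le] at hc
  have h1 := Nat.findGreatest_spec (P := fun n => 2 * p.eval n + n + 1 ≤
    2 * p.eval x.length + x.length + 1) (m := x.length) (n := 2 * p.eval x.length + x.length + 1)
    (by omega) le_rfl
  have h2 := eval_mono p hc.le
  omega

theorem fast_id (C : ℕ) : ∀ᶠ l in Filter.atTop, C * Nat.log 2 l ≤ l := by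
  obtain ⟨n₀, h⟩ := X9.exists_n0 (Polynomial.C C * Polynomial.X)
  refine Filter.eventually_atTop.2 ⟨2 ^ n₀, fun l hl => ?_⟩
  have h0 : l ≠ 0 := by
    have : 0 < 2 ^ n₀ := by positivity
    omega
  have h1 : n₀ ≤ Nat.log 2 l := Nat.le_log_of_pow_le (by norm_num) hl
  have h2 := h _ h1
  simp only [Polynomial.eval_mul, Polynomial.eval_C, Polynomial.eval_X] at h2
  exact h2.trans (Nat.pow_log_le_self 2 h0)

theorem fast_ul {h : ℕ → ℕ} (hh : ∀ C, ∀ᶠ n in Filter.atTop, C * Nat.log 2 n ≤ h n)
    (p : Polynomial ℕ) (C : ℕ) : ∀ᶠ l in Filter.atTop, C * Nat.log 2 l ≤ h (ul p l) := by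
  set R : Polynomial ℕ := (2 * p + Polynomial.X + 1).comp (Polynomial.X + 1) with hR
  have hRe : ∀ n, R.eval n = 2 * p.eval (n + 1) + (n + 1) + 1 := fun n => by
    simp [hR, Polynomial.eval_comp]
  obtain ⟨N, hN⟩ := Filter.eventually_atTop.1 (hh (C * (2 * (R.natDegree + 1))))
  set n₀ := N + R.eval 1 + 2 with hn₀
  refine Filter.eventually_atTop.2 ⟨2 * p.eval n₀ + n₀ + 1, fun l hl => ?_⟩
  have h1 : n₀ ≤ ul p l := Nat.le_findGreatest (by omega) hl
  set n := ul p l with hn
  have h2 : l < R.eval n := by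
    rw [hRe]
    by_contra hc
    rw [not_lt] at hc
    exact Nat.findGreatest_is_greatest (P := fun n => 2 * p.eval n + n + 1 ≤ l) (n := l)
      (k := n + 1) (Nat.lt_succ_self _) (by omega) hc
  have hlog : 1 ≤ Nat.log 2 n := Nat.log_pos (by norm_num) (by omega)
  have h3 : n < 2 ^ (Nat.log 2 n + 1) := Nat.lt_pow_succ_log_self (by norm_num) n
  have h4 : l < 2 ^ ((Nat.log 2 n + 1) * (R.natDegree + 1)) := by
    refine h2.trans_le ?_
    calc R.eval n ≤ R.eval 1 * n ^ R.natDegree := X9.eval_le _ _ (by omega)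
      _ ≤ n * n ^ R.natDegree := Nat.mul_le_mul_right _ (by omega)
      _ = n ^ (R.natDegree + 1) := by ring
      _ ≤ (2 ^ (Nat.log 2 n + 1)) ^ (R.natDegree + 1) := Nat.pow_le_pow_left h3.le _
      _ = _ := by rw [← pow_mul]
  have h5 : Nat.log 2 l < (Nat.log 2 n + 1) * (R.natDegree + 1) :=
    Nat.log_lt_of_lt_pow (by omega) h4
  refine le_trans ?_ (hN n (by omega))
  rw [mul_assoc]
  refine Nat.mul_le_mul_left _ ?_
  nlinarith

/-- There is an oracle relative to which the languages truth-table reducible to `NP` have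
dimension zero, and for every `h` which grows faster than the logarithm `h n` adaptive questions to
`NP` suffice for exponential time; these languages do not have measure zero. -/
theorem exists_oracle : ∃ A : Oracle,
    (PNull A {L | PttNP A L} ∧ pDim A {L | PttNP A L} = 0) ∧
    ∀ h : ℕ → ℕ, (∃ E : List Bool → List Bool, PolyTime E ∧
        ∀ n, (E (List.replicate n true)).length = h n) →
      (∀ C, ∀ᶠ n in Filter.atTop, C * Nat.log 2 n ≤ h n) →
        (∀ L, IsEXP A L → PNPq A h L) ∧ ¬ PNull A {L | PNPq A h L} := by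
  classical
  obtain ⟨al0, hal⟩ := exists_alg
  obtain ⟨f, hf⟩ := exists_mch
  set al : ℕ → Alg := fun j => if j % 2 = 1 then pdAlg (al0 (j / 2).unpair.1) else
    al0 (j / 2).unpair.1 with hal_def
  set h0 : ℕ → ℕ → ℕ := fun i l => ((al0 i.unpair.2).D (List.replicate l true)).length with hh0
  set hb : ℕ → ℕ → ℕ := fun i =>
    if ∀ C, ∀ᶠ l in Filter.atTop, C * Nat.log 2 l ≤ h0 i l then h0 i else fun l => l with hhb
  set hh : ℕ → ℕ → ℕ := fun j l => if j % 2 = 1 then hb (j / 2) (ul (al0 (j / 2).unpair.1).p l)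
    else hb (j / 2) l with hhh
  have hbfast : ∀ i C, ∀ᶠ l in Filter.atTop, C * Nat.log 2 l ≤ hb i l := by
    intro i C
    by_cases h1 : ∀ C, ∀ᶠ l in Filter.atTop, C * Nat.log 2 l ≤ h0 i l
    · have e : hb i = h0 i := if_pos h1
      rw [e]
      exact h1 C
    · have e : hb i = fun l => l := if_neg h1
      rw [e]
      exact fast_id C
  have hfast : ∀ j C, ∀ᶠ l in Filter.atTop, C * Nat.log 2 l ≤ hh j l := by
    intro j C
    by_cases hj : j % 2 = 1
    · have e : hh j = fun l => hb (j / 2) (ul (al0 (j / 2).unpair.1).p l) := by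
        funext l
        exact if_pos hj
      rw [e]
      exact fast_ul (hbfast (j / 2)) _ C
    · have e : hh j = hb (j / 2) := by
        funext l
        exact if_neg hj
      rw [e]
      exact hbfast (j / 2) C
  obtain ⟨U, κ, hG⟩ := exists_good al (fun n => f n.unpair.1) hfast
  set τ : ℕ → Mch := fun n => f n.unpair.1 with hτ
  have hab : ∀ n, aA U n ≤ bB U n := aA_le_bB
  have ha : ∀ n, n ≤ aA U n := fun n => (Nat.le_succ n).trans (hG.succ_le_aA n)
  have hup : ∀ c : ℕ, IsGale (1 / ((c : ℝ) + 1)) (gg U (KI U κ hh al τ) c) ∧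
      PComp (AA U κ hh al τ) (gg U (KI U κ hh al τ) c) ∧
      ∀ L ∈ {L | PttNP (AA U κ hh al τ) L}, Succeeds (gg U (KI U κ hh al τ) c) (chi L) := fun c =>
    ⟨GG_isGale hab ha (len_KI hG) c,
      pcomp_of_table c (fun w => GG_nonneg _ _ _) (fun w => GG_le hab ha (len_KI hG) c w),
      fun L hL => gg_succeeds hG hf (fun n => rfl) hL c⟩
  refine ⟨AA U κ hh al τ, ⟨?_, ?_⟩, ?_⟩
  · obtain ⟨h1, h2, h3⟩ := hup 0
    refine ⟨_, ?_, h2, h3⟩
    simpa using h1
  · apply le_antisymm
    · refine le_of_forall_pos_le_add fun ε hε => ?_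
      obtain ⟨c, hc⟩ := exists_nat_one_div_lt hε
      rw [zero_add]
      refine le_trans ?_ hc.le
      exact csInf_le ⟨0, fun s hs => hs.1⟩ ⟨by positivity, _, hup c⟩
    · exact le_csInf ⟨_, by positivity, _, hup 0⟩ fun s hs => hs.1
  · rintro h ⟨E, hE, hEh⟩ hh'
    obtain ⟨j₂, hj₂⟩ := hal ⟨E, hE, 0⟩
    have hb_eq : ∀ j₁, hb (Nat.pair j₁ j₂) = h := by
      intro j₁
      have e2 : h0 (Nat.pair j₁ j₂) = h := by
        funext l
        simp only [hh0, Nat.unpair_pair, hj₂]
        exact hEh l
      have h3 : ∀ C, ∀ᶠ l in Filter.atTop, C * Nat.log 2 l ≤ h0 (Nat.pair j₁ j₂) l := by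
        rw [e2]
        exact hh'
      have e : hb (Nat.pair j₁ j₂) = h0 (Nat.pair j₁ j₂) := if_pos h3
      rw [e, e2]
    constructor
    · rintro L ⟨M, hM⟩
      obtain ⟨j₁, hj₁⟩ := hal M
      set j := 2 * Nat.pair j₁ j₂ + 1 with hj
      have hj2 : j % 2 = 1 := by omega
      have hjd : j / 2 = Nat.pair j₁ j₂ := by omega
      have e1 : al j = pdAlg M := by
        simp only [hal_def, if_pos hj2, hjd, Nat.unpair_pair]
        rw [hj₁]
      have e3 : ∀ l, hh j l = h (ul M.p l) := by
        intro l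
        simp only [hhh, if_pos hj2, hjd, hb_eq, Nat.unpair_pair]
        rw [hj₁]
      refine isPNPq_of hG (j := j) hE hEh (poly_pdx M.p) (fun x => by rw [e3, ul_pdx])
        (N := sS U (j + 1)) fun x hx => ?_
      set m := Pool.Agent.Helper76.Dim.idx (pdx M.p x) with hm
      have hsx : sx m = pdx M.p x := Pool.Agent.Helper76.Dim.str_idx _
      have hlen := length_pdx M.p x
      have hph : j < ph U m := by
        have h2 := hG.lt_ph m
        rw [hsx] at h2
        have h3 : j + 1 < ph U m + 1 := hG.sS_mono.lt_iff_lt.1 (lt_of_le_of_lt hx (by omega))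
        omega
      have hein : ein m = pairBits (List.replicate m true) x := by
        rw [ein, hsx, pdx, unpair_pairBits]
      have h2p := two_pow_len_le m
      rw [hsx, hlen] at h2p
      obtain ⟨z, hz1, hz2⟩ := hM x
      have hout : (pdAlg M).out (AA U κ hh al τ) (pairBits (List.replicate m true) x) = some z := by
        rw [Alg.out, pdAlg_run]
        refine M.run_mono _ _ _ _ _ _ ?_ hz1
        have h3 : (pdAlg M).p.eval (pairBits (List.replicate m true) x).length =
            2 * m + x.length + 1 := by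
          show Polynomial.X.eval _ = _
          rw [Polynomial.eval_X, A2.length_pairBits, List.length_replicate]
        rw [h3]
        have h4 : 2 ^ M.p.eval x.length ≤ 2 ^ (2 * M.p.eval x.length + x.length + 1) :=
          Nat.pow_le_pow_right (by norm_num) (by omega)
        omega
      rw [XI_odd hG hj2 hph, e1, hein, hout, hz2]
      simp
    · rintro ⟨d, hd, ⟨F, ⟨M, hM⟩, hdF⟩, hsucc⟩
      obtain ⟨j₁, hj₁⟩ := hal M
      set j := 2 * Nat.pair j₁ j₂ with hj
      have hj2 : ¬ j % 2 = 1 := by omega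
      have hjd : j / 2 = Nat.pair j₁ j₂ := by omega
      have e1 : al j = M := by
        simp only [hal_def, if_neg hj2, hjd, Nat.unpair_pair]
        exact hj₁
      have e3 : hh j = h := by
        funext l
        simp only [hhh, if_neg hj2, hjd, hb_eq]
      have h4 : PNPq (AA U κ hh al τ) h (RL U κ hh al τ j) :=
        isPNPq_of hG (j := j) hE hEh Poly.id (fun x => by rw [e3]) (N := 0) fun x _ => Iff.rfl
      exact not_succeeds hG (j := j) (by omega) (by rw [e1]; exact hM) hd hdF (hsucc _ h4)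

end Pool.Agent.Helper79K.TT
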