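import Pool.Agent.Helper79K.TT.Adv

set_option autoImplicit false

namespace Pool.Agent.Helper79K.TT

open Pool.Agent.NPC Pool.Agent.H620R2.Gauge Finset

variable (hf : ℕ → ℕ → ℕ) (al : ℕ → Alg) (τ : ℕ → Mch)

/-- the number of thresholds which are needed in window `n` -/
noncomputable def T3 (n : ℕ) : Polynomial ℕ :=
  (((Polynomial.X + Polynomial.C (n + 3)) * (Polynomial.C (3 * (n + 1)) *
    ((τ n).2.2.comp (Polynomial.X + Polynomial.C (n + 3))))) + 1).comp (Polynomial.X ^ 3)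

theorem eval_T3 (n u : ℕ) : (T3 τ n).eval u =
    (u ^ 3 + n + 3) * (3 * (n + 1) * (τ n).2.2.eval (u ^ 3 + n + 3)) + 1 := by
  simp [T3, Polynomial.eval_comp, add_assoc]

/-- the number of binary digits of the thresholds -/
noncomputable def kk (n u : ℕ) : ℕ := 2 * ((T3 τ n).natDegree + 1) * Nat.log 2 u

theorem T3_le {n u : ℕ} (h1 : (T3 τ n).eval 1 ≤ u) (h2 : 2 ≤ u) :
    (T3 τ n).eval u ≤ 2 ^ kk τ n u := by
  have hlog : 1 ≤ Nat.log 2 u := Nat.log_pos (by norm_num) h2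
  have h3 : u ≤ 2 ^ (2 * Nat.log 2 u) := by
    refine (Nat.lt_pow_succ_log_self (b := 2) (by norm_num) u).le.trans ?_
    refine Nat.pow_le_pow_right (by norm_num) ?_
    simp only [Nat.succ_eq_add_one]
    omega
  calc (T3 τ n).eval u ≤ (T3 τ n).eval 1 * u ^ (T3 τ n).natDegree := X9.eval_le _ _ (by omega)
    _ ≤ u * u ^ (T3 τ n).natDegree := Nat.mul_le_mul_right _ h1
    _ = u ^ ((T3 τ n).natDegree + 1) := by ring
    _ ≤ (2 ^ (2 * Nat.log 2 u)) ^ ((T3 τ n).natDegree + 1) := Nat.pow_le_pow_left h3 _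
    _ = 2 ^ kk τ n u := by rw [← pow_mul, kk]; ring_nf

/-- the conditions for the parameter `u` of window `n` -/
def Cn (n u : ℕ) : Prop :=
  (BL (τ n)).eval (u ^ 3 + n + 3) ≤ 2 ^ u ^ 3 ∧
  3 * (n + 1) * 2 ^ u ^ 3 * ((τ n).2.2.eval (u ^ 3 + n + 3) + 1) *
    (BR (τ n)).eval (u ^ 3 + n + 3) ≤ 2 ^ (u ^ 2) ^ 2 ∧
  (1 ≤ kk τ n u ∧ (T3 τ n).eval u ≤ 2 ^ kk τ n u ∧
    ∀ j < n, ∀ l, u ^ 2 ≤ l → kk τ n u ≤ hf j l) ∧
  (∀ j < n, ∀ m < 2 ^ u ^ 2, (lb (al j)).eval (3 * m + 2) ≤ 2 ^ u ^ 3) ∧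
  (∀ m, u ^ 2 ≤ (sx m).length →
    3 * ∑ j ∈ range n, (al j).p.eval (3 * m + 2) ≤ 2 ^ (sx m).length ^ 2)

/-- polynomials of powers of two -/
theorem eval_pow_le (P : Polynomial ℕ) (L : ℕ) :
    P.eval (2 ^ L) ≤ 2 ^ (P.eval 1 + P.natDegree * L) := by
  have h1 := X9.eval_le P (2 ^ L) Nat.one_le_two_pow
  refine h1.trans ?_
  rw [pow_add, ← pow_mul, mul_comm L]
  exact Nat.mul_le_mul_right _ Nat.lt_two_pow_self.le

theorem eventually_poly (P : Polynomial ℕ) : ∃ u₀ : ℕ, ∀ u ≥ u₀, P.eval (u ^ 3) ≤ 2 ^ u := by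
  obtain ⟨n₀, h⟩ := X9.exists_n0 (P.comp (Polynomial.X ^ 3))
  refine ⟨n₀, fun u hu => ?_⟩
  have := h u hu
  simpa [Polynomial.eval_comp] using this

theorem le_cube (u : ℕ) : u ≤ u ^ 3 := Nat.le_self_pow (by norm_num) _

theorem le_sq (u : ℕ) : u ≤ u ^ 2 := Nat.le_self_pow (by norm_num) _

variable {hf} in
theorem exists_Cn (hfast : ∀ j C, ∀ᶠ l in Filter.atTop, C * Nat.log 2 l ≤ hf j l) (n : ℕ) :
    ∃ u₀ : ℕ, ∀ u ≥ u₀, Cn hf al τ n u := by
  set T : Polynomial ℕ := Polynomial.X + Polynomial.C (n + 3) with hT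
  have hTe : ∀ v, T.eval v = v + n + 3 := fun v => by simp [hT]; ring
  obtain ⟨u1, h1⟩ := eventually_poly ((BL (τ n)).comp T)
  obtain ⟨u2, h2⟩ := eventually_poly
    (Polynomial.C (3 * (n + 1)) * (((τ n).2.2.comp T) + 1) * ((BR (τ n)).comp T))
  choose N hN using fun j => Filter.eventually_atTop.1
    (hfast j (2 * ((T3 τ n).natDegree + 1)))
  set R5 : Polynomial ℕ := (∑ j ∈ range n, lb (al j)).comp
    (Polynomial.C 3 * Polynomial.X + Polynomial.C 2) with hR5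
  set R6 : Polynomial ℕ := (Polynomial.C 3 * ∑ j ∈ range n, (al j).p).comp
    (Polynomial.C 3 * Polynomial.X + Polynomial.C 2) with hR6
  refine ⟨u1 + u2 + ((T3 τ n).eval 1 + ∑ j ∈ range n, N j) + (R5.eval 1 + R5.natDegree) +
    (R6.eval 1 + 2 * R6.natDegree) + 2,
    fun u hu => ⟨?_, ?_, ?_, ?_, ?_⟩⟩
  · have h4 := h1 u (by omega)
    rw [Polynomial.eval_comp, hTe] at h4
    exact h4.trans (Nat.pow_le_pow_right (by norm_num) (le_cube u))
  · have h4 := h2 u (by omega)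
    simp only [Polynomial.eval_mul, Polynomial.eval_add, Polynomial.eval_comp, hTe,
      Polynomial.eval_C, Polynomial.eval_one] at h4
    have h5 : u ^ 3 + u ^ 3 ≤ (u ^ 2) ^ 2 := by
      have h6 : 2 ≤ u := by omega
      calc u ^ 3 + u ^ 3 = 2 * u ^ 3 := by ring
        _ ≤ u * u ^ 3 := Nat.mul_le_mul_right _ h6
        _ = (u ^ 2) ^ 2 := by ring
    have h6 : 2 ^ u ≤ 2 ^ u ^ 3 := Nat.pow_le_pow_right (by norm_num) (le_cube u)
    calc 3 * (n + 1) * 2 ^ u ^ 3 * ((τ n).2.2.eval (u ^ 3 + n + 3) + 1) *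
        (BR (τ n)).eval (u ^ 3 + n + 3) = 2 ^ u ^ 3 * (3 * (n + 1) *
          ((τ n).2.2.eval (u ^ 3 + n + 3) + 1) * (BR (τ n)).eval (u ^ 3 + n + 3)) := by ring
      _ ≤ 2 ^ u ^ 3 * 2 ^ u ^ 3 := Nat.mul_le_mul_left _ (h4.trans h6)
      _ = 2 ^ (u ^ 3 + u ^ 3) := (pow_add _ _ _).symm
      _ ≤ _ := Nat.pow_le_pow_right (by norm_num) h5
  · refine ⟨?_, T3_le τ (by omega) (by omega), ?_⟩
    · have hlog : 1 ≤ Nat.log 2 u := Nat.log_pos (by norm_num) (by omega)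
      rw [kk]
      nlinarith
    · intro j hj l hl
      have h4 : u ≤ l := (le_sq u).trans hl
      have h5 : N j ≤ ∑ j ∈ range n, N j :=
        Finset.single_le_sum (f := N) (fun _ _ => Nat.zero_le _) (Finset.mem_range.2 hj)
      refine le_trans ?_ (hN j l (by omega))
      rw [kk]
      exact Nat.mul_le_mul_left _ (Nat.log_mono_right h4)
  · intro j hj m hm
    have h4 : (lb (al j)).eval (3 * m + 2) ≤ R5.eval (2 ^ u ^ 2) := by
      rw [hR5, Polynomial.eval_comp, Polynomial.eval_finsetSum]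
      simp only [Polynomial.eval_add, Polynomial.eval_mul, Polynomial.eval_C, Polynomial.eval_X]
      refine (eval_mono (lb (al j)) (show 3 * m + 2 ≤ 3 * 2 ^ u ^ 2 + 2 by omega)).trans ?_
      exact Finset.single_le_sum (f := fun j => (lb (al j)).eval (3 * 2 ^ u ^ 2 + 2))
        (fun _ _ => Nat.zero_le _) (Finset.mem_range.2 hj)
    refine h4.trans ((eval_pow_le R5 (u ^ 2)).trans (Nat.pow_le_pow_right (by norm_num) ?_))
    have h5 : R5.eval 1 + R5.natDegree ≤ u := by omega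
    have h6 : 1 ≤ u ^ 2 := Nat.one_le_pow _ _ (by omega)
    calc R5.eval 1 + R5.natDegree * u ^ 2 ≤ (R5.eval 1 + R5.natDegree) * u ^ 2 := by nlinarith
      _ ≤ u * u ^ 2 := Nat.mul_le_mul_right _ h5
      _ = u ^ 3 := by ring
  · intro m hm
    set L := (sx m).length with hL
    have hm2 : m + 1 < 2 ^ (L + 1) := lt_two_pow_len m
    have h4 : 3 * ∑ j ∈ range n, (al j).p.eval (3 * m + 2) ≤ R6.eval (2 ^ (L + 1)) := by
      rw [hR6, Polynomial.eval_comp, Polynomial.eval_mul, Polynomial.eval_finsetSum]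
      simp only [Polynomial.eval_add, Polynomial.eval_mul, Polynomial.eval_C, Polynomial.eval_X]
      refine Nat.mul_le_mul_left _ (Finset.sum_le_sum fun j _ => eval_mono _ ?_)
      omega
    refine h4.trans ((eval_pow_le R6 (L + 1)).trans (Nat.pow_le_pow_right (by norm_num) ?_))
    have h5 : R6.eval 1 + 2 * R6.natDegree ≤ L := by
      have := le_sq u
      omega
    have h6 : 1 ≤ L := by
      have := le_sq u
      omega
    calc R6.eval 1 + R6.natDegree * (L + 1) ≤ (R6.eval 1 + 2 * R6.natDegree) * L := by nlinarith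
      _ ≤ L * L := Nat.mul_le_mul_right _ h5
      _ = L ^ 2 := by ring

/-- the parameters -/
noncomputable def UU (u₀ : ℕ → ℕ) : ℕ → ℕ
  | 0 => 0
  | n + 1 => UU u₀ n + 1 + u₀ (n + 1) + (BL (τ n)).eval (UU u₀ n ^ 3 + n + 3)

variable {hf} in
theorem exists_good (hfast : ∀ j C, ∀ᶠ l in Filter.atTop, C * Nat.log 2 l ≤ hf j l) :
    ∃ U κ : ℕ → ℕ, Good U κ hf al τ := by
  choose u₀ hu₀ using exists_Cn al τ hfast
  refine ⟨UU τ u₀, fun n => kk τ n (UU τ u₀ n), ?_⟩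
  have hC : ∀ n, 1 ≤ n → Cn hf al τ n (UU τ u₀ n) := by
    intro n hn
    obtain ⟨k, rfl⟩ : ∃ k, n = k + 1 := ⟨n - 1, by omega⟩
    refine hu₀ (k + 1) _ ?_
    rw [UU]
    omega
  refine ⟨?_, rfl, ?_, ?_, ?_, ?_, ?_, ?_, ?_, ?_⟩
  · refine strictMono_nat_of_lt_succ fun n => ?_
    rw [UU]
    omega
  · intro n hn
    exact (hC n hn).2.2.1.1
  · intro n j hj l hl
    exact (hC n (by omega)).2.2.1.2.2 j hj l hl
  · intro n hn
    exact (hC n hn).1
  · intro n hn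
    rw [sS, xX]
    refine le_trans ?_ (le_sq _)
    rw [UU]
    omega
  · intro n hn
    exact (hC n hn).2.1
  · intro n hn
    have h := (hC n hn).2.2.1.2.1
    rw [eval_T3] at h
    set u := UU τ u₀ n with hu
    have ha : 1 ≤ aA (UU τ u₀) n := Nat.one_le_two_pow
    have hb := aA_le_bB (U := UU τ u₀) n
    have h3 : 3 * (n + 1) ≤ 2 ^ (n + 3) := by
      have := Nat.lt_two_pow_self (n := n)
      rw [pow_add]
      omega
    have h1 : nN (UU τ u₀) n + 1 ≤ 2 ^ xX (UU τ u₀) n := by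
      have h2 : nN (UU τ u₀) n + 1 ≤ bB (UU τ u₀) n := by
        unfold nN
        omega
      refine h2.trans ?_
      rw [bB, xX, add_assoc, pow_add, mul_comm, ← aA]
      exact Nat.mul_le_mul_left _ h3
    refine (Nat.pow_le_pow_left h1 _).trans ?_
    rw [← pow_mul]
    refine Nat.pow_le_pow_right (by norm_num) ?_
    rw [err]
    refine (Nat.mul_div_le_mul_div_assoc _ _ _).trans ?_
    refine Nat.div_le_of_le_mul ?_
    have h4 : xX (UU τ u₀) n * (bB (UU τ u₀) n * (τ n).2.2.eval (xX (UU τ u₀) n)) =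
        (xX (UU τ u₀) n * (3 * (n + 1) * (τ n).2.2.eval (xX (UU τ u₀) n))) *
          aA (UU τ u₀) n := by
      rw [bB]
      ring
    rw [h4]
    refine Nat.mul_le_mul_right _ ?_
    exact Nat.le_sub_one_of_lt (Nat.lt_of_succ_le h)
  · intro n j hj m hm
    exact (hC n (by omega)).2.2.2.1 j hj m hm
  · intro n m hm
    rcases Nat.eq_zero_or_pos n with rfl | hn
    · simp
    · exact (hC n hn).2.2.2.2 m hm

end Pool.Agent.Helper79K.TT
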