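import Pool.Agent.Helper79K.TT.Tab
import Pool.Agent.Helper79K.DM.Gale

set_option autoImplicit false

namespace Pool.Agent.Helper79K.TT

open Finset
open Pool.Agent.Helper76.Dim (IsGale Succeeds initSeg length_initSeg drop_take_initSeg)
open Pool.Agent.Helper79K.DM (win_append_in win_append_short win_append_long isPrefix_split not_both)

variable (a b : ℕ → ℕ)

/-- the segment number `n` of `w` -/
def seg (n : ℕ) (w : List Bool) : List Bool := (w.drop (a n)).take (b n - a n)

open Classical in
/-- the martingale of the uniform distribution on the set `K n` of possible segments -/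
noncomputable def dn (K : ℕ → Finset (List Bool)) (n : ℕ) (w : List Bool) : ℝ :=
  if K n = ∅ then 1 else
    2 ^ (seg a b n w).length * ((K n).filter fun κ => seg a b n w <+: κ).card / (K n).card

/-- the total martingale -/
noncomputable def DD (K : ℕ → Finset (List Bool)) (w : List Bool) : ℝ :=
  ∑ n ∈ range (w.length + 1), (1 / 2) ^ (n + 1) * dn a b K n w + (1 / 2) ^ (w.length + 1)

variable {a b}

theorem dn_nonneg (K : ℕ → Finset (List Bool)) (n : ℕ) (w : List Bool) : 0 ≤ dn a b K n w := by
  unfold dn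
  split_ifs
  · exact zero_le_one
  · positivity

theorem dn_short (K : ℕ → Finset (List Bool)) {n : ℕ} {w : List Bool} (h : w.length ≤ a n) :
    dn a b K n w = 1 := by
  unfold dn
  split_ifs with h1
  · rfl
  · have e : seg a b n w = [] := by rw [seg, List.drop_of_length_le h, List.take_nil]
    have h2 : ((K n).card : ℝ) ≠ 0 := by
      rw [Nat.cast_ne_zero]
      exact Finset.card_ne_zero.2 (Finset.nonempty_iff_ne_empty.2 h1)
    rw [e]
    simp only [List.length_nil, pow_zero, one_mul, List.nil_prefix, Finset.filter_true]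
    exact div_self h2

theorem dn_mart {K : ℕ → Finset (List Bool)} (hab : ∀ n, a n ≤ b n)
    (hK : ∀ n, ∀ κ ∈ K n, κ.length = b n - a n) (n : ℕ) (w : List Bool) :
    dn a b K n (w ++ [false]) + dn a b K n (w ++ [true]) = 2 * dn a b K n w := by
  classical
  by_cases h0 : K n = ∅
  · unfold dn
    rw [if_pos h0, if_pos h0, if_pos h0]
    norm_num
  have hab' := hab n
  unfold dn
  rw [if_neg h0, if_neg h0, if_neg h0]
  rcases lt_or_ge w.length (a n) with h1 | h1
  · rw [seg, seg, seg, win_append_short _ h1, win_append_short _ h1]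
    ring
  · rcases lt_or_ge w.length (a n + (b n - a n)) with h2 | h2
    · have e0 : seg a b n (w ++ [false]) = seg a b n w ++ [false] := win_append_in _ h1 h2
      have e1 : seg a b n (w ++ [true]) = seg a b n w ++ [true] := win_append_in _ h1 h2
      have h3 : (seg a b n w).length < b n - a n := by
        simp only [seg, List.length_take, List.length_drop]
        omega
      have h4 : ((K n).filter fun κ => seg a b n w <+: κ).card =
          ((K n).filter fun κ => seg a b n w ++ [false] <+: κ).card +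
            ((K n).filter fun κ => seg a b n w ++ [true] <+: κ).card := by
        rw [← Finset.card_union_of_disjoint]
        · congr 1
          ext κ
          simp only [Finset.mem_union, Finset.mem_filter]
          constructor
          · rintro ⟨h5, h6⟩
            rcases (isPrefix_split (by rw [hK n κ h5]; exact h3)).1 h6 with h7 | h7
            · exact Or.inl ⟨h5, h7⟩
            · exact Or.inr ⟨h5, h7⟩
          · rintro (⟨h5, h6⟩ | ⟨h5, h6⟩)
            · exact ⟨h5, (List.prefix_append _ _).trans h6⟩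
            · exact ⟨h5, (List.prefix_append _ _).trans h6⟩
        · rw [Finset.disjoint_left]
          intro κ h5 h6
          exact not_both (Finset.mem_filter.1 h5).2 (Finset.mem_filter.1 h6).2
      rw [e0, e1, h4, List.length_append, List.length_append, List.length_singleton,
        List.length_singleton, Nat.cast_add]
      ring
    · rw [seg, seg, seg, win_append_long _ h2, win_append_long _ h2]
      ring

theorem DD_nonneg (K : ℕ → Finset (List Bool)) (w : List Bool) : 0 ≤ DD a b K w :=
  add_nonneg (Finset.sum_nonneg fun n _ => mul_nonneg (by positivity) (dn_nonneg K n w))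
    (by positivity)

theorem DD_mart {K : ℕ → Finset (List Bool)} (hab : ∀ n, a n ≤ b n) (ha : ∀ n, n ≤ a n)
    (hK : ∀ n, ∀ κ ∈ K n, κ.length = b n - a n) (w : List Bool) :
    DD a b K (w ++ [false]) + DD a b K (w ++ [true]) = 2 * DD a b K w := by
  have h2 : DD a b K (w ++ [false]) + DD a b K (w ++ [true]) =
      ∑ n ∈ range (w.length + 2), (1 / 2) ^ (n + 1) * (2 * dn a b K n w) +
      2 * (1 / 2) ^ (w.length + 2) := by
    simp only [DD, List.length_append, List.length_singleton]
    have : ∀ n, (1 / 2 : ℝ) ^ (n + 1) * (2 * dn a b K n w) =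
        (1 / 2) ^ (n + 1) * dn a b K n (w ++ [false]) +
        (1 / 2) ^ (n + 1) * dn a b K n (w ++ [true]) := by
      intro n
      rw [← dn_mart hab hK n w]
      ring
    simp only [this]
    rw [Finset.sum_add_distrib]
    ring
  have h3 : dn a b K (w.length + 1) w = 1 :=
    dn_short K ((Nat.le_succ _).trans (ha (w.length + 1)))
  rw [h2, DD, Finset.sum_range_succ, h3]
  have h4 : ∑ n ∈ range (w.length + 1), (1 / 2 : ℝ) ^ (n + 1) * (2 * dn a b K n w) =
      2 * ∑ n ∈ range (w.length + 1), (1 / 2 : ℝ) ^ (n + 1) * dn a b K n w := by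
    rw [Finset.mul_sum]
    exact Finset.sum_congr rfl fun n _ => by ring
  rw [h4]
  ring

theorem DD_nil (K : ℕ → Finset (List Bool)) : DD a b K [] = 1 := by
  simp only [DD, List.length_nil, zero_add, Finset.sum_range_one]
  rw [dn_short K (by simp)]
  norm_num

theorem DD_le {K : ℕ → Finset (List Bool)} (hab : ∀ n, a n ≤ b n) (ha : ∀ n, n ≤ a n)
    (hK : ∀ n, ∀ κ ∈ K n, κ.length = b n - a n) (w : List Bool) :
    DD a b K w ≤ 2 ^ w.length := by
  induction w using List.reverseRecOn with
  | nil => rw [DD_nil]; simp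
  | append_singleton w c ih =>
    have h1 := DD_mart hab ha hK w
    have h2 := DD_nonneg (a := a) (b := b) K (w ++ [false])
    have h3 := DD_nonneg (a := a) (b := b) K (w ++ [true])
    rw [List.length_append, List.length_singleton, pow_succ]
    cases c <;> linarith

/-- The martingale on a word depends only on the segments which begin before its end. -/
theorem DD_congr {K K' : ℕ → Finset (List Bool)} {w : List Bool}
    (h : ∀ n, a n < w.length → K n = K' n) : DD a b K w = DD a b K' w := by
  rw [DD, DD]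
  congr 1
  refine Finset.sum_congr rfl fun n _ => ?_
  rcases lt_or_ge (a n) w.length with h1 | h1
  · rw [dn, dn, h n h1]
  · rw [dn_short K h1, dn_short K' h1]

variable (a b) in
/-- the gales of index `1 / (c + 1)` -/
noncomputable def GG (K : ℕ → Finset (List Bool)) (c : ℕ) (w : List Bool) : ℝ :=
  2 ^ ((1 / ((c : ℝ) + 1) - 1) * w.length) * DD a b K w

theorem GG_congr {K K' : ℕ → Finset (List Bool)} {c : ℕ} {w : List Bool}
    (h : ∀ n, a n < w.length → K n = K' n) : GG a b K c w = GG a b K' c w := by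
  rw [GG, GG, DD_congr h]

theorem GG_nonneg (K : ℕ → Finset (List Bool)) (c : ℕ) (w : List Bool) : 0 ≤ GG a b K c w :=
  mul_nonneg (by positivity) (DD_nonneg K w)

theorem GG_le {K : ℕ → Finset (List Bool)} (hab : ∀ n, a n ≤ b n) (ha : ∀ n, n ≤ a n)
    (hK : ∀ n, ∀ κ ∈ K n, κ.length = b n - a n) (c : ℕ) (w : List Bool) :
    GG a b K c w ≤ 2 ^ w.length := by
  refine le_trans ?_ (DD_le hab ha hK w)
  refine mul_le_of_le_one_left (DD_nonneg K w) ?_
  refine Real.rpow_le_one_of_one_le_of_nonpos (by norm_num) ?_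
  have h1 : 1 / ((c : ℝ) + 1) ≤ 1 := by
    rw [div_le_one (by positivity)]
    linarith [Nat.cast_nonneg (α := ℝ) c]
  have h2 : (0 : ℝ) ≤ w.length := Nat.cast_nonneg _
  nlinarith

theorem GG_isGale {K : ℕ → Finset (List Bool)} (hab : ∀ n, a n ≤ b n) (ha : ∀ n, n ≤ a n)
    (hK : ∀ n, ∀ κ ∈ K n, κ.length = b n - a n) (c : ℕ) :
    IsGale (1 / ((c : ℝ) + 1)) (GG a b K c) := by
  refine ⟨fun w => GG_nonneg K c w, fun w => ?_⟩
  have h1 := DD_mart hab ha hK w
  simp only [GG, List.length_append, List.length_singleton]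
  rw [← mul_add, h1]
  push_cast
  have h2 : (2 : ℝ) ^ (-(1 / ((c : ℝ) + 1))) *
      (2 ^ ((1 / ((c : ℝ) + 1) - 1) * ((w.length : ℝ) + 1)) * (2 * DD a b K w)) =
      (2 ^ (-(1 / ((c : ℝ) + 1))) * 2 ^ ((1 / ((c : ℝ) + 1) - 1) * ((w.length : ℝ) + 1)) *
        2 ^ (1 : ℝ)) * DD a b K w := by
    rw [Real.rpow_one]
    ring
  rw [h2, ← Real.rpow_add (by norm_num), ← Real.rpow_add (by norm_num)]
  congr 2
  ring

/-- If the segments of the sequence are infinitely often possible ones, then the gales succeed. -/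
theorem GG_succeeds {K : ℕ → Finset (List Bool)} (hab : ∀ n, b n = 3 * (n + 1) * a n)
    (ha : ∀ n, n + 1 ≤ a n) (hK : ∀ n, (K n).card ≤ 2 ^ a n) {X : ℕ → Bool}
    (hX : ∃ᶠ n in Filter.atTop, seg a b n (initSeg X (b n)) ∈ K n) (c : ℕ) :
    Succeeds (GG a b K c) X := by
  intro C m
  obtain ⟨C', hC'⟩ := exists_nat_gt C
  obtain ⟨n, hn, hn2⟩ := Filter.frequently_atTop.1 hX (m + C' + 2 * c + 2)
  have ha' := ha n
  have hb := hab n
  have hbig : a n ≤ b n := by rw [hb]; nlinarith
  refine ⟨b n, by omega, lt_of_lt_of_le hC' ?_⟩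
  set w := initSeg X (b n) with hw
  have hlen : w.length = b n := length_initSeg _ _
  have hseg : (seg a b n w).length = b n - a n := by
    simp only [seg, List.length_take, List.length_drop]
    omega
  have h1 : (2 : ℝ) ^ (b n - a n) / 2 ^ a n ≤ dn a b K n w := by
    classical
    have hne : K n ≠ ∅ := Finset.ne_empty_of_mem hn2
    rw [dn, if_neg hne, hseg]
    have h2 : (1 : ℝ) ≤ ((K n).filter fun κ => seg a b n w <+: κ).card := by
      exact_mod_cast Finset.card_pos.2 ⟨_, Finset.mem_filter.2 ⟨hn2, List.prefix_rfl⟩⟩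
    have h3 : (0 : ℝ) < (K n).card := by
      exact_mod_cast Finset.card_pos.2 (Finset.nonempty_iff_ne_empty.2 hne)
    have h4 : ((K n).card : ℝ) ≤ 2 ^ a n := by exact_mod_cast hK n
    rw [div_le_div_iff₀ (by positivity) h3]
    have h5 : (0 : ℝ) < 2 ^ (b n - a n) := by positivity
    have h6 : (2 : ℝ) ^ (b n - a n) * (K n).card ≤ 2 ^ (b n - a n) * 2 ^ a n :=
      mul_le_mul_of_nonneg_left h4 h5.le
    have h7 : (2 : ℝ) ^ (b n - a n) * 1 * 2 ^ a n ≤
        2 ^ (b n - a n) * ((K n).filter fun κ => seg a b n w <+: κ).card * 2 ^ a n := by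
      gcongr
    linarith
  have h2 : (1 / 2 : ℝ) ^ (n + 1) * dn a b K n w ≤ DD a b K w := by
    have h3 : ∀ n' ∈ range (w.length + 1), 0 ≤ (1 / 2 : ℝ) ^ (n' + 1) * dn a b K n' w :=
      fun n' _ => mul_nonneg (by positivity) (dn_nonneg K n' w)
    have h4 := Finset.single_le_sum h3 (Finset.mem_range.2 (show n < w.length + 1 by omega))
    exact h4.trans (le_add_of_nonneg_right (by positivity))
  have h3 : (2 : ℝ) ^ ((b n : ℝ) - 3 * a n) ≤ DD a b K w := by
    refine le_trans ?_ h2
    refine le_trans ?_ (mul_le_mul_of_nonneg_left h1 (by positivity))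
    have e1 : (1 / 2 : ℝ) ^ (n + 1) = 2 ^ (-((n : ℝ) + 1)) := by
      rw [Real.rpow_neg (by norm_num), one_div, inv_pow]
      congr 1
      rw [← Real.rpow_natCast]
      push_cast
      rfl
    have e2 : (2 : ℝ) ^ (b n - a n) = 2 ^ ((b n : ℝ) - a n) := by
      rw [← Real.rpow_natCast, Nat.cast_sub hbig]
    have e3 : (2 : ℝ) ^ a n = 2 ^ (a n : ℝ) := (Real.rpow_natCast _ _).symm
    rw [e1, e2, e3, ← Real.rpow_sub (by norm_num), ← Real.rpow_add (by norm_num)]
    refine Real.rpow_le_rpow_of_exponent_le (by norm_num) ?_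
    have : ((n + 1 : ℕ) : ℝ) ≤ a n := by exact_mod_cast ha'
    push_cast at this
    linarith
  have h4 : (2 : ℝ) ^ (a n : ℝ) ≤ GG a b K c w := by
    rw [GG, hlen]
    refine le_trans ?_ (mul_le_mul_of_nonneg_left h3 (by positivity))
    rw [← Real.rpow_add (by norm_num)]
    refine Real.rpow_le_rpow_of_exponent_le (by norm_num) ?_
    have h5 : (b n : ℝ) = 3 * ((n : ℝ) + 1) * a n := by
      rw [hb]
      push_cast
      ring
    have h6 : (2 : ℝ) * (c + 1) ≤ n := by
      have : 2 * (c + 1) ≤ n := by omega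
      exact_mod_cast this
    have h7 : (0 : ℝ) ≤ a n := Nat.cast_nonneg _
    have h8 : (4 : ℝ) * a n ≤ 1 / ((c : ℝ) + 1) * b n := by
      rw [one_div, inv_mul_eq_div, le_div_iff₀ (by positivity), h5]
      nlinarith
    linarith
  refine le_trans ?_ h4
  have h5 : C' ≤ 2 ^ a n := by
    have := Nat.lt_two_pow_self (n := a n)
    omega
  rw [Real.rpow_natCast]
  exact_mod_cast h5

end Pool.Agent.Helper79K.TT
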