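import Pool.Agent.Helper79K.TT.Start

set_option autoImplicit false

namespace Pool.Agent.Helper79K.TT

open Pool.Agent.NPC Pool.Agent.H620R2.Gauge Finset
open Pool.Agent.Helper76.Dim (length_str_le length_str_eq)

/-- the binary digits of `c`, the highest digit first, with `L` digits -/
def bin : ℕ → ℕ → List Bool
  | 0, _ => []
  | L + 1, c => bin L (c / 2) ++ [decide (c % 2 = 1)]

theorem length_bin (L c : ℕ) : (bin L c).length = L := by
  induction L generalizing c with
  | zero => rfl
  | succ L ih => simp [bin, ih]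

theorem nv_append (l : List Bool) (b : Bool) : nv (l ++ [b]) = 2 * nv l + b.toNat := by
  simp [nv]

theorem nv_bin (L c : ℕ) (h : c < 2 ^ L) : nv (bin L c) = c := by
  induction L generalizing c with
  | zero =>
    have : c = 0 := by simpa using h
    subst this
    rfl
  | succ L ih =>
    rw [bin, nv_append, ih _ (by rw [pow_succ] at h; omega)]
    rcases Nat.mod_two_eq_zero_or_one c with h1 | h1
    · simp [h1]; omega
    · simp [h1]; omega

/-- The state of the construction: the hidden languages so far, the hidden part of the oracle,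
the strings whose membership is fixed, the possible segments, the present threshold. -/
structure State : Type where
  /-- the initial segments of the hidden languages -/
  ρ : ℕ → List Bool
  /-- the hidden part of the oracle -/
  P : Set (List Bool)
  /-- the fixed strings -/
  Z : Finset (List Bool)
  /-- the possible segments -/
  K : ℕ → Finset (List Bool)
  /-- the threshold -/
  cc : ℕ

variable (U κ : ℕ → ℕ) (hf : ℕ → ℕ → ℕ) (al : ℕ → Alg) (τ : ℕ → Mch)

/-- the present phase -/
def ph (m : ℕ) : ℕ := Nat.findGreatest (fun n => sS U n ≤ (sx m).length) (sx m).length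

/-- the stored functions -/
noncomputable def gg (K : ℕ → Finset (List Bool)) : ℕ → List Bool → ℝ := GG (aA U) (bB U) K

/-- the oracle of a state -/
noncomputable def So (S : State) : Oracle := orc (gg U S.K) S.P

open Classical in
/-- the chosen threshold -/
noncomputable def stC (n : ℕ) (S : State) : ℕ :=
  if h : 1 ≤ KK κ n then (exists_start (U := U) (τ n) n (gg U S.K) S.P S.Z h).choose else 0

open Classical in
/-- the chosen strings -/
noncomputable def stQ (n : ℕ) (S : State) : Set (List Bool) :=
  if h : 1 ≤ KK κ n then (exists_start (U := U) (τ n) n (gg U S.K) S.P S.Z h).choose_spec.choose else ∅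

theorem st_spec {n : ℕ} (S : State) (h : 1 ≤ KK κ n) :
    stC U κ τ n S < KK κ n ∧ stQ U κ τ n S ⊆ legal U n (stC U κ τ n S) ∧
      (∀ v ∈ stQ U κ τ n S, true :: v ∉ S.Z) ∧
      ∀ Q' ⊆ legal U n (stC U κ τ n S + 1), (∀ v ∈ Q', true :: v ∉ S.Z) →
        (AS U (τ n) n (orc (gg U S.K) (S.P ∪ Q'))).card ≤
          (AS U (τ n) n (orc (gg U S.K) (S.P ∪ stQ U κ τ n S))).card + err U κ (τ n) n := by
  rw [stC, stQ, dif_pos h, dif_pos h]
  exact (exists_start (U := U) (τ n) n (gg U S.K) S.P S.Z h).choose_spec.choose_spec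

/-- the base oracle of a window -/
noncomputable def bo (n : ℕ) (S : State) : Oracle := orc (gg U S.K) (S.P ∪ stQ U κ τ n S)

open Classical in
/-- the beginning of window `n` -/
noncomputable def start (n : ℕ) (S : State) : State where
  ρ := S.ρ
  P := S.P ∪ stQ U κ τ n S
  Z := S.Z ∪ froz U (τ n) n (bo U κ τ n S)
  K := Function.update S.K n (ball (nN U n) (pat U (τ n) n (bo U κ τ n S)) (err U κ (τ n) n))
  cc := stC U κ τ n S

open Classical in
/-- the first half of stage `m` -/
noncomputable def mid (m : ℕ) (S : State) : State :=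
  if ph U m ≠ 0 ∧ m + 1 = 2 ^ sS U (ph U m) then start U κ τ (ph U m) S else S

/-- input of the adversary -/
def zin (m : ℕ) (w : List Bool) (b : Bool) : List Bool :=
  pairBits (List.replicate m true) (w ++ [b])

/-- the value given by the adversary -/
noncomputable def va (j m : ℕ) (A : Oracle) (w : List Bool) (b : Bool) : ℕ :=
  bval (((al j).out A (zin m w b)).getD [])

/-- input of the computations in exponential time -/
def ein (m : ℕ) : List Bool := pairBits (List.replicate m true) (unpair (sx m)).2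

/-- the next bit of the hidden language number `j`; for odd `j` it is the result of a computation
in exponential time -/
noncomputable def bit (j m : ℕ) (S : State) : Bool :=
  if j % 2 = 1 then decide ((al j).out (So U S) (ein m) = some [true])
  else decide (va al j m (So U S) (S.ρ j) true < va al j m (So U S) (S.ρ j) false)

open Classical in
/-- the questions of the adversaries -/
noncomputable def runs (k m : ℕ) (S : State) : Finset (List Bool) :=
  (range k).biUnion fun j => (qs (al j) (So U S) (zin m (S.ρ j) true) ∪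
    qs (al j) (So U S) (zin m (S.ρ j) false)) ∪ qs (al j) (So U S) (ein m)

/-- length of the witnesses -/
def yL (x : List Bool) : ℕ := x.length ^ 2 + x.length + 2

open Classical in
/-- a new witness -/
noncomputable def fresh (Z : Finset (List Bool)) (x : List Bool) : List Bool :=
  if h : ∃ y : List Bool, y.length = yL x ∧ ∀ j c, true :: hs j x c y ∉ Z then h.choose else []

/-- the threshold `c` or `c + 1` with the parity given by `b` -/
def top (c : ℕ) (b : Bool) : ℕ := if decide (c % 2 = 1) = b then c else c + 1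

open Classical in
/-- the second half of stage `m` -/
noncomputable def fin (m : ℕ) (S : State) : State where
  ρ := fun j => S.ρ j ++ [decide (j < ph U m) && bit U al j m S]
  P := S.P ∪ {v | ∃ j < ph U m, v = hs j (sx m)
    (bin (hf j (sx m).length) (top S.cc (bit U al j m S)))
    (fresh (S.Z ∪ runs U al (ph U m) m S) (sx m))}
  Z := S.Z ∪ runs U al (ph U m) m S
  K := S.K
  cc := S.cc

/-- the state before stage `m` -/
noncomputable def St : ℕ → State
  | 0 => ⟨fun _ => [], ∅, ∅, fun _ => ∅, 0⟩
  | m + 1 => fin U hf al m (mid U κ τ m (St m))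

/-- the state in the middle of stage `m` -/
noncomputable def Md (m : ℕ) : State := mid U κ τ m (St U κ hf al τ m)

theorem St_succ (m : ℕ) : St U κ hf al τ (m + 1) = fin U hf al m (Md U κ hf al τ m) := rfl

/-- the conditions on the parameters -/
structure Good : Prop where
  mono : StrictMono U
  zero : U 0 = 0
  RK : ∀ n, 1 ≤ n → 1 ≤ κ n
  RH : ∀ n, ∀ j < n, ∀ l, sS U n ≤ l → κ n ≤ hf j l
  R1 : ∀ n, 1 ≤ n → (BL (τ n)).eval (xX U n) ≤ aA U n
  R2 : ∀ n, 1 ≤ n → (BL (τ n)).eval (xX U n) ≤ sS U (n + 1)
  R3 : ∀ n, 1 ≤ n → bB U n * ((τ n).2.2.eval (xX U n) + 1) * (BR (τ n)).eval (xX U n) ≤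
    2 ^ (sS U n) ^ 2
  R4 : ∀ n, 1 ≤ n → (nN U n + 1) ^ (err U κ (τ n) n) ≤ 2 ^ aA U n
  R5 : ∀ n, ∀ j < n, ∀ m < 2 ^ sS U n, (lb (al j)).eval (3 * m + 2) ≤ aA U n
  R6 : ∀ n m, sS U n ≤ (sx m).length →
    3 * ∑ j ∈ range n, (al j).p.eval (3 * m + 2) ≤ 2 ^ (sx m).length ^ 2

variable {U κ hf al τ}

section basic

theorem Good.sS_mono (hG : Good U κ hf al τ) : StrictMono (sS U) := fun _ _ h =>
  Nat.pow_lt_pow_left (hG.mono h) (by norm_num)

theorem Good.sS_zero (hG : Good U κ hf al τ) : sS U 0 = 0 := by rw [sS, hG.zero]; rfl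

theorem Good.le_sS (hG : Good U κ hf al τ) (n : ℕ) : n ≤ sS U n := hG.sS_mono.le_apply

theorem Good.aA_mono (hG : Good U κ hf al τ) {n n' : ℕ} (h : n ≤ n') : aA U n ≤ aA U n' :=
  Nat.pow_le_pow_right (by norm_num) (Nat.pow_le_pow_left (hG.mono.monotone h) 3)

theorem Good.succ_le_aA (hG : Good U κ hf al τ) (n : ℕ) : n + 1 ≤ aA U n := by
  have h1 : n ≤ U n := hG.mono.le_apply
  have h2 : U n ≤ U n ^ 3 := Nat.le_self_pow (by norm_num) _
  have h3 := Nat.lt_two_pow_self (n := U n ^ 3)
  rw [aA]
  omega

theorem aA_le_bB (n : ℕ) : aA U n ≤ bB U n := by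
  rw [bB]
  exact Nat.le_mul_of_pos_left _ (by omega)

theorem Good.KK_pos (hG : Good U κ hf al τ) {n : ℕ} (h : 1 ≤ n) : 1 ≤ KK κ n := by
  have h1 := hG.RK n h
  have h2 := Nat.lt_two_pow_self (n := κ n)
  rw [KK]
  omega

theorem Good.ph_le (hG : Good U κ hf al τ) (m : ℕ) : sS U (ph U m) ≤ (sx m).length := by
  have h := Nat.findGreatest_spec (P := fun n => sS U n ≤ (sx m).length) (m := 0)
    (Nat.zero_le (sx m).length) (by rw [hG.sS_zero]; exact Nat.zero_le _)
  exact h

theorem Good.lt_ph (hG : Good U κ hf al τ) (m : ℕ) : (sx m).length < sS U (ph U m + 1) := by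
  by_contra hc
  rw [not_lt] at hc
  have h1 : ph U m + 1 ≤ (sx m).length := (hG.le_sS _).trans hc
  have h2 := Nat.findGreatest_is_greatest (P := fun n => sS U n ≤ (sx m).length)
    (n := (sx m).length) (k := ph U m + 1) (Nat.lt_succ_self _) h1
  exact h2 hc

theorem Good.ph_eq (hG : Good U κ hf al τ) {m n : ℕ} (h1 : sS U n ≤ (sx m).length)
    (h2 : (sx m).length < sS U (n + 1)) : ph U m = n := by
  have h3 := hG.ph_le m
  have h4 := hG.lt_ph m
  have h5 : ph U m < n + 1 := hG.sS_mono.lt_iff_lt.1 (h3.trans_lt h2)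
  have h6 : n < ph U m + 1 := hG.sS_mono.lt_iff_lt.1 (h1.trans_lt h4)
  omega

theorem len_mono {m m' : ℕ} (h : m ≤ m') : (sx m).length ≤ (sx m').length := by
  have h3 : 2 ^ (sx m).length < 2 ^ ((sx m').length + 1) :=
    ((length_str_le m).1.trans (Nat.succ_le_succ h)).trans_lt (length_str_le m').2
  have := (Nat.pow_lt_pow_iff_right (by norm_num)).1 h3
  omega

theorem lt_two_pow_len (m : ℕ) : m + 1 < 2 ^ ((sx m).length + 1) := (length_str_le m).2

theorem two_pow_len_le (m : ℕ) : 2 ^ (sx m).length ≤ m + 1 := (length_str_le m).1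

/-- the first string of length `t` -/
theorem len_first {m t : ℕ} (h : m + 1 = 2 ^ t) : (sx m).length = t :=
  length_str_eq h.ge (by rw [h]; exact Nat.pow_lt_pow_right (by norm_num) (Nat.lt_succ_self t))

theorem le_len {m t : ℕ} (h : 2 ^ t ≤ m + 1) : t ≤ (sx m).length := by
  have h1 := lt_two_pow_len m
  have := (Nat.pow_lt_pow_iff_right (by norm_num : 1 < 2)).1 (h.trans_lt h1)
  omega

theorem len_lt {m t : ℕ} (h : m + 1 < 2 ^ t) : (sx m).length < t :=
  (Nat.pow_lt_pow_iff_right (by norm_num : 1 < 2)).1 ((two_pow_len_le m).trans_lt h)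

theorem ph_mono (hG : Good U κ hf al τ) {m m' : ℕ} (h : m ≤ m') : ph U m ≤ ph U m' := by
  have h1 := hG.ph_le m
  have h2 := hG.lt_ph m'
  have h3 : ph U m < ph U m' + 1 := hG.sS_mono.lt_iff_lt.1 ((h1.trans (len_mono h)).trans_lt h2)
  omega

end basic

/-! ### Monotonicity -/

theorem mid_ρ (m : ℕ) (S : State) : (mid U κ τ m S).ρ = S.ρ := by
  unfold mid
  split_ifs <;> rfl

theorem length_ρ (m j : ℕ) : ((St U κ hf al τ m).ρ j).length = m := by
  induction m with
  | zero => rfl
  | succ m ih =>
    have h1 : (St U κ hf al τ (m + 1)).ρ j = (Md U κ hf al τ m).ρ j ++ [_] := rfl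
    rw [h1, List.length_append, Md, mid_ρ, ih]
    rfl

theorem mid_Z (m : ℕ) (S : State) : S.Z ⊆ (mid U κ τ m S).Z := by
  unfold mid
  split_ifs
  · exact Finset.subset_union_left
  · exact Finset.Subset.refl _

theorem mid_P (m : ℕ) (S : State) : S.P ⊆ (mid U κ τ m S).P := by
  unfold mid
  split_ifs
  · exact Set.subset_union_left
  · exact Set.Subset.refl _

theorem Md_Z (m : ℕ) : (Md U κ hf al τ m).Z ⊆ (St U κ hf al τ (m + 1)).Z := by
  rw [St_succ]
  exact Finset.subset_union_left

theorem Z_succ (m : ℕ) : (St U κ hf al τ m).Z ⊆ (St U κ hf al τ (m + 1)).Z :=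
  (mid_Z m _).trans (Md_Z m)

theorem Z_mono {m m' : ℕ} (h : m ≤ m') : (St U κ hf al τ m).Z ⊆ (St U κ hf al τ m').Z :=
  monotone_nat_of_le_succ (f := fun m => (St U κ hf al τ m).Z) Z_succ h

theorem Md_P (m : ℕ) : (Md U κ hf al τ m).P ⊆ (St U κ hf al τ (m + 1)).P := by
  rw [St_succ]
  exact Set.subset_union_left

theorem P_succ (m : ℕ) : (St U κ hf al τ m).P ⊆ (St U κ hf al τ (m + 1)).P :=
  (mid_P m _).trans (Md_P m)

theorem P_mono {m m' : ℕ} (h : m ≤ m') : (St U κ hf al τ m).P ⊆ (St U κ hf al τ m').P :=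
  monotone_nat_of_le_succ (f := fun m => (St U κ hf al τ m).P) P_succ h

/-! ### The number of fixed strings -/

theorem length_zin (m : ℕ) {w : List Bool} (b : Bool) (hw : w.length = m) :
    (zin m w b).length = 3 * m + 2 := by
  rw [zin, A2.length_pairBits, List.length_replicate, List.length_append, hw,
    List.length_singleton]
  omega

theorem ustep_length (s : List Bool × List Bool × Bool) :
    (ustep s).2.1.length ≤ s.2.1.length := by
  obtain ⟨a, l, b⟩ := s
  unfold ustep
  cases b with
  | true => simp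
  | false =>
    match l with
    | [] => simp
    | true :: [] => simp
    | true :: c :: l' => simp; omega
    | false :: l' => simp

theorem unpair_length (y : List Bool) : (unpair y).2.length ≤ y.length := by
  have h : ∀ (k : ℕ) (s : List Bool × List Bool × Bool),
      (ustep^[k] s).2.1.length ≤ s.2.1.length := by
    intro k
    induction k with
    | zero => intro s; simp
    | succ k ih =>
      intro s
      rw [Function.iterate_succ_apply]
      exact (ih _).trans (ustep_length s)
  exact h y.length ([], y, false)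

theorem length_ein (m : ℕ) : (ein m).length ≤ 3 * m + 2 := by
  have h1 := unpair_length (sx m)
  have h2 := two_pow_len_le m
  have h3 := Nat.lt_two_pow_self (n := (sx m).length)
  rw [ein, A2.length_pairBits, List.length_replicate]
  omega

theorem card_runs (k m : ℕ) {S : State} (hS : ∀ j, (S.ρ j).length = m) :
    (runs U al k m S).card ≤ 3 * ∑ j ∈ range k, (al j).p.eval (3 * m + 2) := by
  refine Finset.card_biUnion_le.trans ?_
  rw [Finset.mul_sum]
  refine Finset.sum_le_sum fun j _ => ?_
  refine (Finset.card_union_le _ _).trans ?_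
  have h0 := Finset.card_union_le (qs (al j) (So U S) (zin m (S.ρ j) true))
    (qs (al j) (So U S) (zin m (S.ρ j) false))
  have h1 := card_qs (al j) (So U S) (zin m (S.ρ j) true)
  have h2 := card_qs (al j) (So U S) (zin m (S.ρ j) false)
  have h3 := (card_qs (al j) (So U S) (ein m)).trans (eval_mono (al j).p (length_ein m))
  rw [length_zin m _ (hS j)] at h1 h2
  omega

theorem Md_ρ_len (m j : ℕ) : ((Md U κ hf al τ m).ρ j).length = m := by
  rw [Md, mid_ρ, length_ρ]

theorem card_Z (hG : Good U κ hf al τ) (m : ℕ) :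
    (St U κ hf al τ (m + 1)).Z.card ≤ (m + 1) * 2 ^ ((sx m).length ^ 2 + 1) := by
  have key : ∀ m, (St U κ hf al τ (m + 1)).Z.card ≤ (St U κ hf al τ m).Z.card +
      2 ^ ((sx m).length ^ 2 + 1) := by
    intro m
    have h1 : (St U κ hf al τ (m + 1)).Z = (Md U κ hf al τ m).Z ∪
        runs U al (ph U m) m (Md U κ hf al τ m) := rfl
    rw [h1]
    refine (Finset.card_union_le _ _).trans ?_
    have h2 := (card_runs (U := U) (al := al) (ph U m) m (Md_ρ_len (U := U) (κ := κ) (hf := hf) (al := al) (τ := τ) m)).trans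
      (hG.R6 (ph U m) m (hG.ph_le m))
    have h3 : (Md U κ hf al τ m).Z.card ≤ (St U κ hf al τ m).Z.card + 2 ^ (sx m).length ^ 2 := by
      unfold Md mid
      split_ifs with h4
      · refine (Finset.card_union_le _ _).trans (Nat.add_le_add_left ?_ _)
        refine (card_froz _ _ _).trans ((hG.R3 _ (by omega)).trans ?_)
        rw [len_first h4.2]
      · omega
    rw [pow_succ]
    omega
  induction m with
  | zero =>
    have h1 := key 0
    have h2 : (St U κ hf al τ 0).Z.card = 0 := rfl
    omega
  | succ m ih =>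
    have h1 := key (m + 1)
    have h2 : 2 ^ ((sx m).length ^ 2 + 1) ≤ 2 ^ ((sx (m + 1)).length ^ 2 + 1) :=
      Nat.pow_le_pow_right (by norm_num)
        (Nat.succ_le_succ (Nat.pow_le_pow_left (len_mono (Nat.le_succ m)) 2))
    have h3 : (m + 1) * 2 ^ ((sx m).length ^ 2 + 1) ≤
        (m + 1) * 2 ^ ((sx (m + 1)).length ^ 2 + 1) := Nat.mul_le_mul_left _ h2
    rw [Nat.succ_mul (m + 1)]
    omega

theorem exists_fresh {Z : Finset (List Bool)} {x : List Bool} (h : Z.card < 2 ^ yL x) :
    ∃ y : List Bool, y.length = yL x ∧ ∀ j c, true :: hs j x c y ∉ Z := by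
  classical
  by_contra hc
  push Not at hc
  have h1 : (Finset.univ : Finset (Fin (yL x) → Bool)).image List.ofFn ⊆
      Z.image fun z => (unpair (unpair (unpair z.tail).2).2).2 := by
    intro y hy
    obtain ⟨g, _, rfl⟩ := Finset.mem_image.1 hy
    obtain ⟨j, c, hz⟩ := hc (List.ofFn g) (by simp)
    refine Finset.mem_image.2 ⟨_, hz, ?_⟩
    simp only [List.tail_cons, hs, unpair_pairBits]
  have h2 := Finset.card_le_card h1
  rw [Finset.card_image_of_injective _ List.ofFn_injective] at h2
  have h3 := h2.trans Finset.card_image_le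
  simp at h3
  omega

theorem fresh_spec (hG : Good U κ hf al τ) (m : ℕ) :
    (fresh (St U κ hf al τ (m + 1)).Z (sx m)).length = yL (sx m) ∧
      ∀ j c, true :: hs j (sx m) c (fresh (St U κ hf al τ (m + 1)).Z (sx m)) ∉
        (St U κ hf al τ (m + 1)).Z := by
  have h1 : (St U κ hf al τ (m + 1)).Z.card < 2 ^ yL (sx m) := by
    refine (card_Z hG m).trans_lt ?_
    have h2 := lt_two_pow_len m
    have h3 : yL (sx m) = ((sx m).length + 1) + ((sx m).length ^ 2 + 1) := by
      rw [yL]
      ring
    rw [h3, pow_add 2 ((sx m).length + 1)]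
    exact (Nat.mul_lt_mul_right (Nat.two_pow_pos _)).2 h2
  have h2 := exists_fresh h1
  rw [fresh, dif_pos h2]
  exact h2.choose_spec

end Pool.Agent.Helper79K.TT
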