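import Pool.Agent.Helper79K.TT.Mach

set_option autoImplicit false

namespace Pool.Agent.Helper79K.TT

open Pool.Agent.NPC Pool.Agent.H620R2.Gauge Finset

/-- the number with the binary digits `l`, the highest digit first -/
def nv (l : List Bool) : ℕ := l.foldl (fun n b => 2 * n + b.toNat) 0

/-- the strings of the hidden part: language number `j`, input `x`, threshold `c`, witness `y` -/
def hs (j : ℕ) (x c y : List Bool) : List Bool :=
  pairBits (List.replicate j true) (pairBits x (pairBits c y))

theorem hs_inj {j j' : ℕ} {x x' c c' y y' : List Bool} (h : hs j x c y = hs j' x' c' y') :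
    j = j' ∧ x = x' ∧ c = c' ∧ y = y' := by
  have h1 := congrArg unpair h
  rw [hs, hs, unpair_pairBits, unpair_pairBits, Prod.mk.injEq] at h1
  obtain ⟨h1, h2⟩ := h1
  have h3 := congrArg unpair h2
  rw [unpair_pairBits, unpair_pairBits, Prod.mk.injEq] at h3
  obtain ⟨h3, h4⟩ := h3
  have h5 := congrArg unpair h4
  rw [unpair_pairBits, unpair_pairBits, Prod.mk.injEq] at h5
  refine ⟨?_, h3, h5⟩
  have h6 := congrArg List.length h1
  simpa using h6

theorem length_hs (j : ℕ) (x c y : List Bool) : x.length < (hs j x c y).length := by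
  simp only [hs, A2.length_pairBits]
  omega

/-- the standard enumeration -/
abbrev sx (m : ℕ) : List Bool := Pool.Agent.Helper76.Dim.str m

variable (U κ : ℕ → ℕ)

/-- the level at which window `n` begins -/
def sS (n : ℕ) : ℕ := U n ^ 2

/-- the beginning of segment `n` -/
def aA (n : ℕ) : ℕ := 2 ^ (U n ^ 3)

/-- the end of segment `n` -/
def bB (n : ℕ) : ℕ := 3 * (n + 1) * aA U n

/-- bound for the length of the strings of segment `n` -/
def xX (n : ℕ) : ℕ := U n ^ 3 + n + 3

/-- the number of thresholds of window `n` -/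
def KK (n : ℕ) : ℕ := 2 ^ κ n - 1

/-- the string number `i` of segment `n` -/
def xi (n i : ℕ) : List Bool := sx (aA U n + i)

/-- the length of segment `n` -/
def nN (n : ℕ) : ℕ := bB U n - aA U n

open Classical in
/-- the questions of segment `n` with the answer yes -/
noncomputable def AS (τ : Mch) (n : ℕ) (A : Oracle) : Finset (ℕ × ℕ) :=
  ((range (nN U n)) ×ˢ (range (τ.2.2.eval (xX U n)))).filter fun q =>
    q.2 < τ.2.2.eval (xi U n q.1).length ∧ acc τ A (que (xi U n q.1) q.2)

/-- the number of errors -/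
noncomputable def err (τ : Mch) (n : ℕ) : ℕ := (bB U n * τ.2.2.eval (xX U n)) / KK κ n

/-- the strings which may be put into the oracle in window `n`, with threshold at most `c` -/
def legal (n c : ℕ) : Set (List Bool) :=
  {v | ∃ (j : ℕ) (x c' y : List Bool), v = hs j x c' y ∧ j < n ∧ sS U n ≤ x.length ∧
    x.length < sS U (n + 1) ∧ nv c' ≤ c}

variable {U κ}

theorem len_xi {n i : ℕ} (hi : i < nN U n) : (xi U n i).length ≤ xX U n := by
  have h1 := (Pool.Agent.Helper76.Dim.length_str_le (aA U n + i)).1
  have h2 : aA U n + i + 1 ≤ bB U n := by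
    unfold nN at hi
    omega
  have h3 : 3 * (n + 1) ≤ 2 ^ (n + 3) := by
    have := Nat.lt_two_pow_self (n := n)
    rw [pow_add]
    omega
  have h4 : 2 ^ (xi U n i).length ≤ 2 ^ xX U n := by
    refine h1.trans (h2.trans ?_)
    rw [bB, xX, add_assoc, pow_add, mul_comm, ← aA]
    exact Nat.mul_le_mul_left _ h3
  exact (Nat.pow_le_pow_iff_right (by norm_num)).1 h4

theorem card_AS_le (τ : Mch) (n : ℕ) (A : Oracle) :
    (AS U τ n A).card ≤ bB U n * τ.2.2.eval (xX U n) := by
  classical
  unfold AS
  refine (Finset.card_filter_le _ _).trans ?_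
  rw [Finset.card_product, Finset.card_range, Finset.card_range]
  exact Nat.mul_le_mul_right _ (Nat.sub_le _ _)

theorem AS_congr {τ : Mch} {n : ℕ} {A A' : Oracle}
    (hA : ∀ u : List Bool, u.length < (BL τ).eval (xX U n) → A' u = A u) :
    AS U τ n A = AS U τ n A' := by
  classical
  unfold AS
  refine Finset.filter_congr fun q hq => ?_
  rw [Finset.mem_product, Finset.mem_range] at hq
  exact and_congr_right fun h1 => acc_congr (len_xi hq.1) h1 hA

/-- The pigeonhole argument. -/
theorem pigeon (f : ℕ → ℕ) {K T : ℕ} (hT : ∀ c, f c ≤ T) (hK : 1 ≤ K) :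
    ∃ c < K, f (c + 1) ≤ f c + T / K := by
  by_contra hc
  push Not at hc
  have h1 : ∀ c ≤ K, c * (T / K + 1) ≤ f c := by
    intro c
    induction c with
    | zero => intro _; simp
    | succ c ih =>
      intro h
      have h2 := ih (by omega)
      have h3 := hc c (by omega)
      rw [Nat.succ_mul]
      omega
  have h2 := h1 K le_rfl
  have h3 := hT K
  have h4 : T < K * (T / K + 1) := by
    exact Nat.lt_mul_div_succ T hK
  omega

open Classical in
/-- The choice at the beginning of window `n`: a threshold, and a set of strings with this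
threshold such that not many more questions get the answer yes for the next threshold. -/
theorem exists_start (τ : Mch) (n : ℕ) (G : ℕ → List Bool → ℝ) (P : Set (List Bool))
    (Z : Finset (List Bool)) (hK : 1 ≤ KK κ n) :
    ∃ (c : ℕ) (Q : Set (List Bool)), c < KK κ n ∧ Q ⊆ legal U n c ∧ (∀ v ∈ Q, true :: v ∉ Z) ∧
      ∀ Q' ⊆ legal U n (c + 1), (∀ v ∈ Q', true :: v ∉ Z) →
        (AS U τ n (orc G (P ∪ Q'))).card ≤ (AS U τ n (orc G (P ∪ Q))).card + err U κ τ n := by
  set V : ℕ → Set ℕ := fun c => {k | ∃ Q ⊆ legal U n c, (∀ v ∈ Q, true :: v ∉ Z) ∧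
    k = (AS U τ n (orc G (P ∪ Q))).card} with hV
  have hb : ∀ c, BddAbove (V c) := by
    intro c
    refine ⟨bB U n * τ.2.2.eval (xX U n), ?_⟩
    rintro k ⟨Q, _, _, rfl⟩
    exact card_AS_le _ _ _
  have hne : ∀ c, (V c).Nonempty := fun c => ⟨_, ∅, Set.empty_subset _, by simp, rfl⟩
  obtain ⟨c, hc, h1⟩ := pigeon (fun c => sSup (V c)) (K := KK κ n)
    (T := bB U n * τ.2.2.eval (xX U n)) (fun c => csSup_le (hne c) (by
      rintro k ⟨Q, _, _, rfl⟩
      exact card_AS_le _ _ _)) hK
  obtain ⟨Q, h2, h3, h4⟩ := Nat.sSup_mem (hne c) (hb c)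
  refine ⟨c, Q, hc, h2, h3, fun Q' h5 h6 => ?_⟩
  rw [← h4]
  exact (le_csSup (hb (c + 1)) ⟨Q', h5, h6, rfl⟩).trans h1

open Classical in
/-- a witness -/
noncomputable def wt (τ : Mch) (A : Oracle) (z : List Bool) : List Bool :=
  if h : acc τ A z then h.choose else []

theorem wt_spec {τ : Mch} {A : Oracle} {z : List Bool} (h : acc τ A z) :
    (wt τ A z).length ≤ τ.1.2.eval z.length ∧
      τ.1.1.out A (pairBits (wt τ A z) z) = some [true] := by
  rw [wt, dif_pos h]
  exact h.choose_spec

variable (U) in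
open Classical in
/-- the questions which are kept fixed after the beginning of window `n` -/
noncomputable def froz (τ : Mch) (n : ℕ) (A : Oracle) : Finset (List Bool) :=
  (AS U τ n A).biUnion (fun q => qs τ.1.1 A (pairBits (wt τ A (que (xi U n q.1) q.2))
    (que (xi U n q.1) q.2))) ∪
  (range (nN U n)).biUnion (fun i => qs τ.2.1 A (pairBits (ans τ A (xi U n i)) (xi U n i)))

theorem card_froz (τ : Mch) (n : ℕ) (A : Oracle) :
    (froz U τ n A).card ≤ bB U n * (τ.2.2.eval (xX U n) + 1) * (BR τ).eval (xX U n) := by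
  refine (Finset.card_union_le _ _).trans ?_
  have h1 : ((AS U τ n A).biUnion (fun q => qs τ.1.1 A (pairBits (wt τ A (que (xi U n q.1) q.2))
      (que (xi U n q.1) q.2)))).card ≤
      (bB U n * τ.2.2.eval (xX U n)) * (BR τ).eval (xX U n) := by
    refine Finset.card_biUnion_le.trans ?_
    refine (Finset.sum_le_card_nsmul _ _ ((BR τ).eval (xX U n)) fun q hq => ?_).trans ?_
    · refine (card_qs _ _ _).trans ?_
      simp only [AS, Finset.mem_filter, Finset.mem_product, Finset.mem_range] at hq
      have h2 := len_wit (len_xi hq.1.1) hq.2.1 (wt_spec hq.2.2).1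
      have h3 := eval_mono τ.1.1.p h2
      rw [eval_BR]
      omega
    · rw [smul_eq_mul]
      exact Nat.mul_le_mul_right _ (card_AS_le _ _ _)
  have h2 : ((range (nN U n)).biUnion (fun i => qs τ.2.1 A
      (pairBits (ans τ A (xi U n i)) (xi U n i)))).card ≤ bB U n * (BR τ).eval (xX U n) := by
    refine Finset.card_biUnion_le.trans ?_
    refine (Finset.sum_le_card_nsmul _ _ ((BR τ).eval (xX U n)) fun i hi => ?_).trans ?_
    · refine (card_qs _ _ _).trans ?_
      rw [Finset.mem_range] at hi
      have h2 := len_ev (τ := τ) (len_xi hi) A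
      have h3 := eval_mono τ.2.1.p h2
      rw [eval_BR]
      omega
    · rw [smul_eq_mul, Finset.card_range]
      exact Nat.mul_le_mul_right _ (Nat.sub_le _ _)
  refine (Nat.add_le_add h1 h2).trans (le_of_eq ?_)
  ring

theorem AS_subset {τ : Mch} {n : ℕ} {A A' : Oracle} (hA : ∀ u ∈ froz U τ n A, A' u = A u) :
    AS U τ n A ⊆ AS U τ n A' := by
  classical
  intro q hq
  have hq' := hq
  simp only [AS, Finset.mem_filter] at hq ⊢
  obtain ⟨h1, h2, h3⟩ := hq
  refine ⟨h1, h2, acc_of_qs (wt_spec h3).1 (wt_spec h3).2 fun u hu => hA u ?_⟩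
  exact Finset.mem_union_left _ (Finset.mem_biUnion.2 ⟨q, hq', hu⟩)

variable (U) in
open Classical in
/-- the segment of the language -/
noncomputable def pat (τ : Mch) (n : ℕ) (A : Oracle) (i : ℕ) : Bool :=
  decide (lg τ A (xi U n i))

/-- The segment of the final language is close to the predicted one. -/
theorem pat_mem_ball {τ : Mch} {n e : ℕ} {A A' : Oracle}
    (hA : ∀ u ∈ froz U τ n A, A' u = A u)
    (he : (AS U τ n A').card ≤ (AS U τ n A).card + e) :
    (List.range (nN U n)).map (pat U τ n A') ∈ ball (nN U n) (pat U τ n A) e := by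
  classical
  refine mem_ball ?_
  have h1 : ((range (nN U n)).filter fun i => pat U τ n A' i ≠ pat U τ n A i) ⊆
      (AS U τ n A' \ AS U τ n A).image Prod.fst := by
    intro i hi
    rw [Finset.mem_filter, Finset.mem_range] at hi
    obtain ⟨hi, h2⟩ := hi
    by_contra hc
    apply h2
    have h3 : ∀ l < τ.2.2.eval (xi U n i).length,
        (acc τ A' (que (xi U n i) l) ↔ acc τ A (que (xi U n i) l)) := by
      intro l hl
      have hmem : ∀ B : Oracle, (i, l) ∈ AS U τ n B ↔ acc τ B (que (xi U n i) l) := by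
        intro B
        simp only [AS, Finset.mem_filter, Finset.mem_product, Finset.mem_range]
        have h4 := eval_mono τ.2.2 (len_xi hi)
        exact ⟨fun h => h.2.2, fun h => ⟨⟨hi, by omega⟩, hl, h⟩⟩
      rw [← hmem, ← hmem]
      constructor
      · intro h4
        by_contra h5
        exact hc (Finset.mem_image.2 ⟨(i, l), Finset.mem_sdiff.2 ⟨h4, h5⟩, rfl⟩)
      · exact fun h4 => AS_subset hA h4
    have h4 : ans τ A' (xi U n i) = ans τ A (xi U n i) := by
      refine List.map_congr_left fun l hl => ?_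
      exact decide_eq_decide.2 (h3 l (List.mem_range.1 hl))
    unfold pat
    refine decide_eq_decide.2 ?_
    unfold lg
    rw [h4, out_qs fun u hu => hA u ?_]
    exact Finset.mem_union_right _ (Finset.mem_biUnion.2 ⟨i, Finset.mem_range.2 hi, hu⟩)
  refine (Finset.card_le_card h1).trans (Finset.card_image_le.trans ?_)
  rw [Finset.card_sdiff_of_subset (AS_subset hA)]
  omega

end Pool.Agent.Helper79K.TT
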