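import Pool.Agent.Helper79K.TT.Defs
import Pool.Agent.Helper76.Dim.Str
import Pool.Agent.H620R2.GaugeX.X1
import Pool.Agent.H620R2.GaugeX.X9
import Pool.Agent.H620R2.GaugeX.NonNullX

set_option autoImplicit false

namespace Pool.Agent.Helper79K.TT

open Pool.Agent.NPC Pool.Agent.H620R2.Gauge Finset H568R2

/-! ### Binary digits -/

theorem bval_testBit (n B : ℕ) : bval ((List.range B).map fun i => n.testBit i) = n % 2 ^ B := by
  induction B generalizing n with
  | zero => simp [bval, Nat.mod_one]
  | succ B ih =>
    rw [List.range_succ_eq_map, List.map_cons, List.map_map, bval]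
    have h1 : ((fun i => n.testBit i) ∘ Nat.succ) = fun i => (n / 2).testBit i := by
      funext i
      simp [Nat.testBit_succ]
    rw [h1, ih, Nat.testBit_zero, pow_succ, mul_comm (2 ^ B) 2, Nat.mod_mul]
    congr 1
    rcases Nat.mod_two_eq_zero_or_one n with h | h <;> simp [h]

/-! ### Locality of algorithms -/

/-- bound for the length of the questions -/
noncomputable def lb (M : Alg) : Polynomial ℕ := (A2.act_bound M).choose

theorem lb_spec (M : Alg) (x a : List Bool) (h : a.length ≤ M.p.eval x.length) :
    (M.D (pairBits x a)).length ≤ (lb M).eval x.length := (A2.act_bound M).choose_spec x a h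

theorem run_loc (M : Alg) (A : Oracle) (x : List Bool) (n : ℕ) (a : List Bool)
    (h : a.length + n ≤ M.p.eval x.length) :
    ∃ U : Finset (List Bool), U.card ≤ n ∧ (∀ u ∈ U, u.length < (lb M).eval x.length) ∧
      ∀ A' : Oracle, (∀ u ∈ U, A' u = A u) → M.run A' x n a = M.run A x n a := by
  classical
  induction n generalizing a with
  | zero => exact ⟨∅, by simp, by simp, fun A' _ => rfl⟩
  | succ n ih =>
    rcases hq : M.D (pairBits x a) with _ | ⟨c, q⟩
    · exact ⟨∅, by simp, by simp, fun A' _ => by simp only [Alg.run, hq]⟩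
    · cases c with
      | true => exact ⟨∅, by simp, by simp, fun A' _ => by simp only [Alg.run, hq]⟩
      | false =>
        obtain ⟨Q, h1, h2, h3⟩ := ih (a ++ [A q]) (by simp; omega)
        refine ⟨insert q Q, (Finset.card_insert_le _ _).trans (by omega), ?_, ?_⟩
        · intro u hu
          rcases Finset.mem_insert.1 hu with rfl | hu
          · have h4 := lb_spec M x a (by omega)
            rw [hq, List.length_cons] at h4
            omega
          · exact h2 u hu
        · intro A' hA'
          simp only [Alg.run, hq]
          rw [hA' q (Finset.mem_insert_self _ _)]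
          exact h3 A' fun r hr => hA' r (Finset.mem_insert_of_mem hr)

theorem out_loc (M : Alg) (A : Oracle) (x : List Bool) :
    ∃ U : Finset (List Bool), U.card ≤ M.p.eval x.length ∧
      (∀ u ∈ U, u.length < (lb M).eval x.length) ∧
      ∀ A' : Oracle, (∀ u ∈ U, A' u = A u) → M.out A' x = M.out A x :=
  run_loc M A x _ [] (by simp)

/-- the questions of a run -/
noncomputable def qs (M : Alg) (A : Oracle) (x : List Bool) : Finset (List Bool) :=
  (out_loc M A x).choose

theorem card_qs (M : Alg) (A : Oracle) (x : List Bool) :
    (qs M A x).card ≤ M.p.eval x.length := (out_loc M A x).choose_spec.1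

theorem len_qs (M : Alg) (A : Oracle) (x : List Bool) {u : List Bool} (h : u ∈ qs M A x) :
    u.length < (lb M).eval x.length := (out_loc M A x).choose_spec.2.1 u h

theorem out_qs {M : Alg} {A A' : Oracle} {x : List Bool} (h : ∀ u ∈ qs M A x, A' u = A u) :
    M.out A' x = M.out A x := (out_loc M A x).choose_spec.2.2 A' h

/-! ### The oracle with a table -/

/-- the questions about the table -/
def tcode (c r : ℕ) (w : List Bool) (i : ℕ) : List Bool :=
  false :: pairBits (List.replicate c true) (pairBits (List.replicate r true)
    (pairBits w (List.replicate i true)))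

theorem length_tcode (c r : ℕ) (w : List Bool) (i : ℕ) : w.length < (tcode c r w i).length := by
  simp only [tcode, List.length_cons, A2.length_pairBits]
  omega

/-- reading the parts of a question -/
def dc (v : List Bool) : ℕ × ℕ × List Bool × ℕ :=
  ((unpair v).1.length, (unpair (unpair v).2).1.length, (unpair (unpair (unpair v).2).2).1,
    (unpair (unpair (unpair v).2).2).2.length)

theorem dc_tcode (c r : ℕ) (w : List Bool) (i : ℕ) :
    dc (pairBits (List.replicate c true) (pairBits (List.replicate r true)
      (pairBits w (List.replicate i true)))) = (c, r, w, i) := by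
  simp only [dc, unpair_pairBits, List.length_replicate]

open Classical in
/-- the oracle whose table contains the functions `G c`, and whose other part is given by `P` -/
noncomputable def orc (G : ℕ → List Bool → ℝ) (P : Set (List Bool)) : Oracle := fun z =>
  match z with
  | [] => false
  | true :: v => decide (v ∈ P)
  | false :: v =>
    if tcode (dc v).1 (dc v).2.1 (dc v).2.2.1 (dc v).2.2.2 = false :: v then
      (⌊G (dc v).1 (dc v).2.2.1 * 2 ^ (dc v).2.1⌋₊).testBit (dc v).2.2.2
    else false

theorem orc_tcode (G : ℕ → List Bool → ℝ) (P : Set (List Bool)) (c r : ℕ) (w : List Bool) (i : ℕ) :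
    orc G P (tcode c r w i) = (⌊G c w * 2 ^ r⌋₊).testBit i := by
  have h := dc_tcode c r w i
  show (if tcode (dc _).1 (dc _).2.1 (dc _).2.2.1 (dc _).2.2.2 = false :: _ then _ else _) = _
  rw [h]
  exact if_pos rfl

open Classical in
theorem orc_true (G : ℕ → List Bool → ℝ) (P : Set (List Bool)) (v : List Bool) :
    orc G P (true :: v) = decide (v ∈ P) := rfl

/-- Agreement of two such oracles in a string. -/
theorem orc_congr {G G' : ℕ → List Bool → ℝ} {P P' : Set (List Bool)} {z : List Bool}
    (hG : ∀ (c : ℕ) (w : List Bool), w.length < z.length → G c w = G' c w)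
    (hP : ∀ v, z = true :: v → (v ∈ P ↔ v ∈ P')) : orc G P z = orc G' P' z := by
  rcases z with _ | ⟨b, v⟩
  · rfl
  · cases b
    · show (if _ then _ else _) = (if _ then _ else _)
      split_ifs with h
      · rw [hG]
        have h1 := length_tcode (dc v).1 (dc v).2.1 (dc v).2.2.1 (dc v).2.2.2
        rw [h] at h1
        exact h1
      · rfl
    · rw [orc_true, orc_true]
      exact decide_eq_decide.2 (hP v rfl)

/-- reading a number from the table -/
def rd (c : ℕ) (z : List Bool) : List (List Bool) :=
  (List.range (z.length + 1)).map fun i =>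
    tcode c (unpair z).1.length (unpair z).2 (min i (z.length + 1))

theorem poly_rep {α : Type} [TEnc α] {n : α → ℕ} (h : UPoly n) :
    Poly (fun a => List.replicate (n a) true) :=
  (NPC.Poly.map (F := fun _ _ => true) h (NPC.Poly.const true)).congr fun a => by simp

theorem poly_rd (c : ℕ) : Poly (rd c) := by
  have h1 : UPoly (fun z : List Bool => z.length + 1) := (UPoly.length Poly.id).add (UPoly.const 1)
  refine NPC.Poly.map (F := fun z i => tcode c (unpair z).1.length (unpair z).2
    (min i (z.length + 1))) h1.range ?_
  unfold tcode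
  have hz : Poly (fun p : List Bool × ℕ => p.1) := Poly.fst Poly.id
  have hr : Poly (fun p : List Bool × ℕ => List.replicate (unpair p.1).1.length true) :=
    poly_rep (UPoly.length (Poly.fst (poly_unpair.comp hz)))
  have hi : Poly (fun p : List Bool × ℕ => List.replicate (min p.2 (p.1.length + 1)) true) :=
    poly_rep (UPoly.of_le (Poly.min (Poly.snd Poly.id) (h1.comp hz).toPoly) (h1.comp hz)
      fun p => min_le_right _ _)
  exact Poly.cons (NPC.Poly.const false) (H622R2.poly_pairBits (NPC.Poly.const _)
    (H622R2.poly_pairBits hr (H622R2.poly_pairBits (Poly.snd (poly_unpair.comp hz)) hi)))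

/-- Functions stored in the table are computable. -/
theorem pcomp_of_table {G : ℕ → List Bool → ℝ} {P : Set (List Bool)} (c : ℕ)
    (h0 : ∀ w, 0 ≤ G c w) (h1 : ∀ w, G c w ≤ 2 ^ w.length) : PComp (orc G P) (G c) := by
  refine ⟨fun z => (rd c z).map (orc G P), IsFP.tt (H := fun p => p.2) (poly_rd c)
    (Poly.snd Poly.id), fun r w => ?_⟩
  have e1 : (rd c (pairBits (List.replicate r true) w)).map (orc G P) =
      (List.range ((pairBits (List.replicate r true) w).length + 1)).map fun i =>
        (⌊G c w * 2 ^ r⌋₊).testBit i := by
    rw [rd, List.map_map]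
    refine List.map_congr_left fun i hi => ?_
    rw [List.mem_range] at hi
    simp only [Function.comp_apply, unpair_pairBits, List.length_replicate]
    rw [orc_tcode, min_eq_left hi.le]
  have h2 : (0 : ℝ) < 2 ^ r := by positivity
  have h3 : ⌊G c w * 2 ^ r⌋₊ < 2 ^ ((pairBits (List.replicate r true) w).length + 1) := by
    have h4 : (⌊G c w * 2 ^ r⌋₊ : ℝ) ≤ ((2 ^ (w.length + r) : ℕ) : ℝ) := by
      refine (Nat.floor_le (mul_nonneg (h0 w) h2.le)).trans ?_
      push_cast
      rw [pow_add]
      exact mul_le_mul_of_nonneg_right (h1 w) h2.le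
    have h5 : ⌊G c w * 2 ^ r⌋₊ ≤ 2 ^ (w.length + r) := by exact_mod_cast h4
    refine h5.trans_lt (Nat.pow_lt_pow_right (by norm_num) ?_)
    rw [A2.length_pairBits, List.length_replicate]
    omega
  simp only []
  rw [e1, bval_testBit, Nat.mod_eq_of_lt h3]
  have h6 := Nat.floor_le (mul_nonneg (h0 w) h2.le)
  have h7 := Nat.lt_floor_add_one (G c w * 2 ^ r)
  have e2 : (1 : ℝ) / 2 ^ r * 2 ^ r = 1 := by field_simp
  rw [abs_le]
  constructor
  · rw [neg_le_sub_iff_le_add, ← add_div, le_div_iff₀ h2]
    linarith
  · rw [sub_le_iff_le_add, div_add' _ _ _ h2.ne', div_le_div_iff_of_pos_right h2]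
    linarith

end Pool.Agent.Helper79K.TT
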